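import Pool.Agent.Run7.h358.U2.Fl

set_option autoImplicit false

/-!
# The smallest torsor of a period matrix

A point of the torsors with algebraic coordinates.
-/

open Matrix Pool.Agent.Y102 Pool.Agent.Run7.h358.U2

noncomputable section

namespace Pool.Agent.Run7.h358.A1

variable {n : ℕ}

/-- A matrix with linearly independent columns has a left inverse. -/
theorem left_inv {I : Type} [Fintype I] [DecidableEq I] {m : ℕ} {t : Matrix I (Fin m) ℚ}
    (h : LinearIndependent ℚ (fun j i => t i j)) : ∃ v : Matrix (Fin m) I ℚ, v * t = 1 := by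
  have h1 : Function.Injective t.mulVec := by
    rw [Matrix.mulVec_injective_iff]
    exact h
  have h2 : LinearMap.ker (Matrix.toLin' t) = ⊥ := by
    rw [LinearMap.ker_eq_bot]
    exact h1
  obtain ⟨f, hf⟩ := (Matrix.toLin' t).exists_leftInverse_of_injective h2
  refine ⟨LinearMap.toMatrix' f, ?_⟩
  have h3 := LinearMap.toMatrix'_comp f (Matrix.toLin' t)
  rw [hf, LinearMap.toMatrix'_id, LinearMap.toMatrix'_toLin'] at h3
  exact h3.symm

/-- A matrix `T` with algebraic entries such that `P T` is in all algebraic groups over `ℚ` with a torsor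
over `ℚ̄` which contains `P`. -/
theorem exists_base {P : Matrix (Fin n) (Fin n) ℂ} (hP : P.det ≠ 0) :
    ∃ (F T : Matrix (Fin n) (Fin n) ℂ) (x₀ : GL (Fin n) ℂ),
      (∀ p : MvPolynomial (Fin n × Fin n) QBar, ev P p = 0 → ev F p = 0) ∧ F * T = 1 ∧
      (∀ i j, T i j ∈ algebraicClosure ℚ ℂ) ∧ (x₀ : Matrix (Fin n) (Fin n) ℂ) = P * T ∧
      ∀ G : Subgroup (GL (Fin n) ℂ), (∃ I : Set (MvPolynomial (Fin n × Fin n) ℚ),
        ∀ x : GL (Fin n) ℂ, x ∈ G ↔ ∀ p ∈ I,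
          MvPolynomial.aeval (fun b : Fin n × Fin n => (x : Matrix (Fin n) (Fin n) ℂ) b.1 b.2) p = 0) →
        (∃ T₁ : Matrix (Fin n) (Fin n) ℂ, (∀ i j, IsAlgebraic ℚ (T₁ i j)) ∧
          ∃ y ∈ G, (y : Matrix (Fin n) (Fin n) ℂ) = P * T₁) → x₀ ∈ G := by
  obtain ⟨F, hF1, hF2, hF⟩ := exists_point P hP
  obtain ⟨T, hFT, hT'⟩ := Pool.Agent.R917.alg_inv hF1 hF2
  have hTF : T * F = 1 := mul_eq_one_comm.1 hFT
  have hTd : T.det ≠ 0 := fun h0 => by
    have h1 := congrArg Matrix.det hFT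
    rw [Matrix.det_mul, h0, mul_zero, Matrix.det_one] at h1
    exact zero_ne_one h1
  obtain ⟨x₀, hx₀⟩ : ∃ x₀ : GL (Fin n) ℂ, (x₀ : Matrix (Fin n) (Fin n) ℂ) = P * T :=
    ⟨Matrix.GeneralLinearGroup.mkOfDetNeZero (P * T) (by
      rw [Matrix.det_mul]; exact mul_ne_zero hP hTd), rfl⟩
  refine ⟨F, T, x₀, hF, hFT, hT', hx₀, ?_⟩
  rintro G ⟨I, hI⟩ ⟨T₁, hT₁, y, hy, hyT⟩
  have hd : T₁.det ≠ 0 := fun h0 => by
    have h1 : (y : Matrix (Fin n) (Fin n) ℂ).det = 0 := by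
      rw [hyT, Matrix.det_mul, h0, mul_zero]
    exact (Matrix.GeneralLinearGroup.det y).ne_zero h1
  obtain ⟨y', hy'⟩ : ∃ y' : GL (Fin n) ℂ, (y' : Matrix (Fin n) (Fin n) ℂ) = F * T₁ :=
    ⟨Matrix.GeneralLinearGroup.mkOfDetNeZero (F * T₁) (by
      rw [Matrix.det_mul]; exact mul_ne_zero hF2 hd), rfl⟩
  have h1 : y' ∈ G := by
    rw [hI]
    intro p hp
    rw [hy']
    refine point_mem hF hT₁ p ?_
    rw [← hyT]
    exact (hI y).1 hy p hp
  have h2 : x₀ * y' = y := by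
    apply Units.ext
    rw [Units.val_mul, hx₀, hy', hyT, Matrix.mul_assoc, ← Matrix.mul_assoc T, hTF, Matrix.one_mul]
  have h3 : x₀ = y * y'⁻¹ := by rw [← h2, mul_inv_cancel_right]
  rw [h3]
  exact mul_mem hy (inv_mem h1)

end Pool.Agent.Run7.h358.A1
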