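import Pool.Agent.Run7.h358.A1.Sig
import Pool.Agent.N208.AM.MainB
import Pool.Agent.N208.AD.Dec

set_option autoImplicit false
set_option linter.unusedSectionVars false

/-!
# Abelian varieties whose Hodge group is of type `A_1`, in weakly separated position
-/

open Module Function Matrix TensorProduct

noncomputable section

namespace Pool.Agent.Run7.h358.A1

open Pool.Agent.Y102 Pool.Agent.Y102.TA Pool.Agent.W516.DR Pool.Agent.H204R3.GP
  Pool.Agent.W516.KC Pool.Agent.H204R3.SP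

variable {g : ℕ} {A : AbVar g} {𝔥 : Submodule ℚ (Module.End ℚ A.H1)}

/-- the real matrix of a rational endomorphism -/
def tR (X : Module.End ℚ A.H1) : MR (2 * g) := Matrix.of fun i j => (X (Pi.single j 1) i : ℝ)

/-- the real span -/
def VR (𝔥 : Submodule ℚ (Module.End ℚ A.H1)) : Submodule ℝ (MR (2 * g)) :=
  Submodule.span ℝ {Y | ∃ X ∈ 𝔥, Y = tR X}

/-- the complex span -/
def QM (𝔥 : Submodule ℚ (Module.End ℚ A.H1)) : Submodule ℂ (MC (2 * g)) :=
  Submodule.span ℂ {Y | ∃ X ∈ 𝔥, Y = toC X}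

theorem cR_tR (X : Module.End ℚ A.H1) : cR (tR X) = toC X := by
  ext i j
  simp [cR, tR, toC]

theorem MM_VR : MM (VR 𝔥) = QM 𝔥 := by
  apply le_antisymm
  · refine Submodule.span_le.2 ?_
    rintro _ ⟨X, hX, rfl⟩
    induction hX using Submodule.span_induction with
    | mem X hX =>
      obtain ⟨X, hX, rfl⟩ := hX
      rw [cR_tR]
      exact Submodule.subset_span ⟨X, hX, rfl⟩
    | zero =>
      have h1 : cR (0 : MR (2 * g)) = 0 := by
        ext i j
        simp [cR]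
      rw [h1]
      exact Submodule.zero_mem _
    | add a b _ _ ha hb =>
      rw [cR_add]
      exact Submodule.add_mem _ ha hb
    | smul c a _ ha =>
      rw [cR_smul]
      exact Submodule.smul_mem _ _ ha
  · refine Submodule.span_le.2 ?_
    rintro _ ⟨X, hX, rfl⟩
    rw [← cR_tR]
    exact cR_mem (Submodule.subset_span ⟨X, hX, rfl⟩)

/-- the matrix of the complex structure -/
def JM (A : AbVar g) : MR (2 * g) := LinearMap.toMatrix A.lam A.lam AbVar.JJ

/-- the matrix of the positive definite form -/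
def PM (A : AbVar g) : MR (2 * g) := Matrix.of fun i k => A.PF (A.lam i) (A.lam k)

theorem tR_eq (X : Module.End ℚ A.H1) : tR X = LinearMap.toMatrix A.lam A.lam (A.ext X) := by
  ext i j
  rw [LinearMap.toMatrix_apply, A.ext_lam, A.repr_per]
  unfold AbVar.bas
  rw [Pi.basisFun_apply]
  rfl

theorem left_PM (f : Module.End ℝ (Fin g → ℂ)) (i k : Fin (2 * g)) :
    ((LinearMap.toMatrix A.lam A.lam f)ᵀ * PM A) i k = A.PF (f (A.lam i)) (A.lam k) := by
  conv_rhs => rw [← A.lam.sum_repr (f (A.lam i))]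
  rw [map_sum, LinearMap.sum_apply, Matrix.mul_apply]
  refine Finset.sum_congr rfl fun j _ => ?_
  rw [map_smul, LinearMap.smul_apply, smul_eq_mul, Matrix.transpose_apply,
    LinearMap.toMatrix_apply]
  rfl

theorem right_PM (f : Module.End ℝ (Fin g → ℂ)) (i k : Fin (2 * g)) :
    (PM A * LinearMap.toMatrix A.lam A.lam f) i k = A.PF (A.lam i) (f (A.lam k)) := by
  conv_rhs => rw [← A.lam.sum_repr (f (A.lam k))]
  rw [map_sum, Matrix.mul_apply]
  refine Finset.sum_congr rfl fun j _ => ?_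
  rw [map_smul, smul_eq_mul, LinearMap.toMatrix_apply, mul_comm]
  rfl

theorem JJ_sq : (AbVar.JJ : Module.End ℝ (Fin g → ℂ)) * AbVar.JJ = -1 := by
  refine LinearMap.ext fun u => ?_
  rw [Module.End.mul_apply, AbVar.JJ_apply, AbVar.JJ_apply, smul_smul, Complex.I_mul_I,
    neg_one_smul]
  rfl

theorem adj_ext {X : Module.End ℚ A.H1} (hX : X ∈ A.NA) (u v : Fin g → ℂ) :
    A.PF (A.ext X u) v =
      A.PF u (((AbVar.JJ : Module.End ℝ (Fin g → ℂ)) * (A.ext X : Module.End ℝ (Fin g → ℂ)) *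
        (AbVar.JJ : Module.End ℝ (Fin g → ℂ)) : Module.End ℝ (Fin g → ℂ)) v) := by
  have hsk : ∀ u v, A.E (A.ext X u) v = -A.E u (A.ext X v) := by
    have h2 : A.E.comp (A.ext X) = -(A.E.flip.comp (A.ext X)).flip := by
      refine A.ext_per fun u => A.ext_per fun v => ?_
      change A.E (A.ext X (A.per u)) (A.per v) = -A.E (A.per u) (A.ext X (A.per v))
      rw [A.ext_apply, A.ext_apply, ← A.om_coe, ← A.om_coe, ← Rat.cast_neg]
      congr 1
      linear_combination A.NA_skew hX u v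
    intro u v
    exact congrArg (fun F : (Fin g → ℂ) →ₗ[ℝ] (Fin g → ℂ) →ₗ[ℝ] ℝ => F u v) h2
  rw [A.PF_apply, A.PF_apply, hsk, Module.End.mul_apply, Module.End.mul_apply,
    AbVar.JJ_apply, AbVar.JJ_apply, smul_smul, Complex.I_mul_I, neg_one_smul, map_neg]

theorem tR_br (X Y : Module.End ℚ A.H1) : tR (X * Y - Y * X) = tR X * tR Y - tR Y * tR X := by
  rw [tR_eq, tR_eq, tR_eq, N208.AD.ext_sub, N208.AD.ext_mul, N208.AD.ext_mul, map_sub,
    LinearMap.toMatrix_mul, LinearMap.toMatrix_mul]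

theorem VR_mono {𝔥 𝔨 : Submodule ℚ (Module.End ℚ A.H1)} (h : 𝔥 ≤ 𝔨) : VR 𝔥 ≤ VR 𝔨 :=
  Submodule.span_mono fun _ ⟨X, hX, he⟩ => ⟨X, h hX, he⟩

theorem JM_sq (A : AbVar g) : JM A * JM A = -1 := by
  have h1 := LinearMap.toMatrix_mul A.lam (AbVar.JJ : Module.End ℝ (Fin g → ℂ)) AbVar.JJ
  rw [JJ_sq, map_neg, LinearMap.toMatrix_one] at h1
  exact h1.symm

theorem PM_pos (A : AbVar g) (a : Fin (2 * g) → ℝ) (ha : a ≠ 0) :
    0 < ∑ i, ∑ k, a i * PM A i k * a k := by
  have h1 : ∑ i, ∑ k, a i * PM A i k * a k =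
      A.PF (∑ i, a i • A.lam i) (∑ i, a i • A.lam i) := by
    have h2 : A.PF (∑ i, a i • A.lam i) = ∑ i, a i • A.PF (A.lam i) := by
      rw [map_sum]
      exact Finset.sum_congr rfl fun i _ => map_smul _ _ _
    rw [h2, LinearMap.sum_apply]
    refine Finset.sum_congr rfl fun i _ => ?_
    rw [LinearMap.smul_apply, map_sum, Finset.smul_sum]
    refine Finset.sum_congr rfl fun k _ => ?_
    rw [map_smul, smul_eq_mul, smul_eq_mul]
    change a i * A.PF (A.lam i) (A.lam k) * a k = _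
    ring
  rw [h1]
  apply A.PF_pos
  intro h0
  apply ha
  have h2 := Fintype.linearIndependent_iff.1 A.lam.linearIndependent a h0
  exact funext h2

theorem PM_adj_gen {f f' : Module.End ℝ (Fin g → ℂ)} (h : ∀ u v, A.PF (f u) v = A.PF u (f' v)) :
    (LinearMap.toMatrix A.lam A.lam f)ᵀ * PM A = PM A * LinearMap.toMatrix A.lam A.lam f' := by
  refine Matrix.ext fun i k => ?_
  rw [left_PM, right_PM, h]

theorem PM_adj_mem {X : Module.End ℚ A.H1} (hX : X ∈ A.NA) :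
    (tR X)ᵀ * PM A = PM A * (JM A * tR X * JM A) := by
  have h1 := PM_adj_gen (A := A) (adj_ext hX)
  have h2 : LinearMap.toMatrix A.lam A.lam ((AbVar.JJ : Module.End ℝ (Fin g → ℂ)) *
      (A.ext X : Module.End ℝ (Fin g → ℂ)) * (AbVar.JJ : Module.End ℝ (Fin g → ℂ))) =
      JM A * tR X * JM A := by
    rw [LinearMap.toMatrix_mul, LinearMap.toMatrix_mul, tR_eq]
    rfl
  rw [h2, ← tR_eq] at h1
  exact h1

theorem PM_adj (A : AbVar g) (X : MR (2 * g)) (hX : X ∈ VR A.NA) :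
    Xᵀ * PM A = PM A * (JM A * X * JM A) := by
  induction hX using Submodule.span_induction with
  | mem X hX =>
    obtain ⟨X, hX, rfl⟩ := hX
    exact PM_adj_mem hX
  | zero => rw [Matrix.transpose_zero, Matrix.zero_mul, Matrix.mul_zero, Matrix.zero_mul,
      Matrix.mul_zero]
  | add a b _ _ ha hb =>
    rw [Matrix.transpose_add, Matrix.add_mul, ha, hb, ← Matrix.mul_add, Matrix.mul_add (JM A),
      Matrix.add_mul]
  | smul c a _ ha =>
    rw [Matrix.transpose_smul, Matrix.smul_mul, ha, Matrix.mul_smul, Matrix.smul_mul,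
      Matrix.mul_smul]

theorem VR_br (A : AbVar g) (X : MR (2 * g)) (hX : X ∈ VR A.NA) (Y : MR (2 * g))
    (hY : Y ∈ VR A.NA) : X * Y - Y * X ∈ VR A.NA := by
  induction hX using Submodule.span_induction with
  | mem X hX =>
    obtain ⟨X, hX, rfl⟩ := hX
    induction hY using Submodule.span_induction with
    | mem Y hY =>
      obtain ⟨Y, hY, rfl⟩ := hY
      rw [← tR_br]
      exact Submodule.subset_span ⟨_, A.NA_bracket hX hY, rfl⟩
    | zero => rw [Matrix.mul_zero, Matrix.zero_mul, sub_zero]; exact Submodule.zero_mem _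
    | add Y Z _ _ hY hZ =>
      have h1 := Submodule.add_mem _ hY hZ
      convert h1 using 1
      rw [Matrix.mul_add, Matrix.add_mul]
      abel
    | smul c Y _ hY =>
      have h1 := Submodule.smul_mem _ c hY
      convert h1 using 1
      rw [Matrix.mul_smul, Matrix.smul_mul, smul_sub]
  | zero => rw [Matrix.mul_zero, Matrix.zero_mul, sub_zero]; exact Submodule.zero_mem _
  | add X Z _ _ hX hZ =>
    have h1 := Submodule.add_mem _ hX hZ
    convert h1 using 1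
    rw [Matrix.mul_add, Matrix.add_mul]
    abel
  | smul c X _ hX =>
    have h1 := Submodule.smul_mem _ c hX
    convert h1 using 1
    rw [Matrix.mul_smul, Matrix.smul_mul, smul_sub]

theorem JM_mem (A : AbVar g) : JM A ∈ VR A.NA := by
  obtain ⟨t, ht⟩ := N208.AM.JJ_eq (A := A)
  have h1 : JM A = ∑ k ∈ t, (Basis.ofVectorSpace ℚ ℝ k) •
      tR (A.cmpE ((Basis.ofVectorSpace ℚ ℝ).coord k) AbVar.JJ) := by
    have h2 := congrArg (LinearMap.toMatrix A.lam A.lam) ht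
    rw [map_sum] at h2
    refine h2.trans (Finset.sum_congr rfl fun k _ => ?_)
    rw [map_smul, tR_eq]
  rw [h1]
  exact Submodule.sum_mem _ fun k _ => Submodule.smul_mem _ _
    (Submodule.subset_span ⟨_, A.MA_le_NA (A.J_mem _), rfl⟩)

theorem PM_sym (A : AbVar g) (i k : Fin (2 * g)) : PM A i k = PM A k i := by
  have h1 := A.PF_symm (A.lam i) (A.lam k)
  exact h1

theorem rd (A : AbVar g) : RD (JM A) (PM A) (VR A.NA) where
  sq := JM_sq A
  sym := PM_sym A
  pos := PM_pos A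
  adj := PM_adj A
  br := VR_br A
  mem := JM_mem A

/-! ### The conditions for full subalgebras, in terms of matrices -/

theorem QM_mono {𝔥 𝔨 : Submodule ℚ (Module.End ℚ A.H1)} (h : 𝔥 ≤ 𝔨) : QM 𝔥 ≤ QM 𝔨 :=
  Submodule.span_mono fun _ ⟨X, hX, he⟩ => ⟨X, h hX, he⟩

theorem mem_QM {X : Matrix (Fin (2 * g)) (Fin (2 * g)) ℂ} :
    X ∈ QM 𝔥 ↔ matE (2 * g) X ∈ cx 𝔥 := by
  rw [← map_lie]
  constructor
  · intro h
    exact ⟨X, h, rfl⟩
  · rintro ⟨Y, hY, he⟩
    rwa [← (matE (2 * g)).injective he]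

theorem QM_sg (σ : ℂ ≃+* ℂ) : ∀ X ∈ QM 𝔥, sg σ X ∈ QM 𝔥 := by
  intro X hX
  induction hX using Submodule.span_induction with
  | mem X hX =>
    obtain ⟨X, hX, rfl⟩ := hX
    have h1 : sg σ (toC X) = toC X := by
      ext i j
      change σ ((X (Pi.single j 1) i : ℚ) : ℂ) = ((X (Pi.single j 1) i : ℚ) : ℂ)
      exact map_ratCast σ _
    rw [h1]
    exact Submodule.subset_span ⟨X, hX, rfl⟩
  | zero => rw [sg_zero]; exact Submodule.zero_mem _
  | add a b _ _ ha hb => rw [sg_add]; exact Submodule.add_mem _ ha hb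
  | smul c a _ ha => rw [sg_smul]; exact Submodule.smul_mem _ _ ha

section Full

variable (h : A.Full 𝔥)
include h

theorem q_br : ∀ X ∈ QM 𝔥, ∀ Y ∈ QM 𝔥, X * Y - Y * X ∈ QM 𝔥 := by
  intro X hX Y hY
  rw [mem_QM] at hX hY ⊢
  rw [map_sub, map_mul, map_mul]
  exact h.cx_br' _ hX _ hY

theorem q_perf : QM (der 𝔥) ≤
    Submodule.span ℂ {Z | ∃ X ∈ QM (der 𝔥), ∃ Y ∈ QM (der 𝔥), Z = X * Y - Y * X} := by
  intro X hX
  rw [mem_QM] at hX
  have h1 := h.cx_perfect hX
  have h2 : Submodule.span ℂ {Z | ∃ X ∈ cx (der 𝔥), ∃ Y ∈ cx (der 𝔥), Z = X * Y - Y * X} ≤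
      (Submodule.span ℂ {Z | ∃ X ∈ QM (der 𝔥), ∃ Y ∈ QM (der 𝔥), Z = X * Y - Y * X}).map
        (matE (2 * g)).toLinearMap := by
    refine Submodule.span_le.2 ?_
    rintro _ ⟨X, hX, Y, hY, rfl⟩
    refine ⟨(matE (2 * g)).symm X * (matE (2 * g)).symm Y -
      (matE (2 * g)).symm Y * (matE (2 * g)).symm X, Submodule.subset_span ⟨_, ?_, _, ?_, rfl⟩, ?_⟩
    · rw [mem_QM, AlgEquiv.apply_symm_apply]
      exact hX
    · rw [mem_QM, AlgEquiv.apply_symm_apply]
      exact hY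
    · change matE (2 * g) _ = _
      rw [map_sub, map_mul, map_mul, AlgEquiv.apply_symm_apply, AlgEquiv.apply_symm_apply]
  obtain ⟨Z, hZ, he⟩ := h2 h1
  rwa [← (matE (2 * g)).injective he]

theorem q_dec : ∀ X ∈ QM 𝔥, ∃ Z ∈ QM 𝔥, ∃ d ∈ QM (der 𝔥), X = Z + d ∧
    ∀ Y ∈ QM 𝔥, Z * Y = Y * Z := by
  intro X hX
  obtain ⟨Z, hZ, d, hd, he, hc⟩ := h.cx_dec _ (mem_QM.1 hX)
  refine ⟨(matE (2 * g)).symm Z, ?_, (matE (2 * g)).symm d, ?_, ?_, fun Y hY => ?_⟩
  · rw [mem_QM, AlgEquiv.apply_symm_apply]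
    exact hZ
  · rw [mem_QM, AlgEquiv.apply_symm_apply]
    exact hd
  · rw [← map_add, ← he, AlgEquiv.symm_apply_apply]
  · apply (matE (2 * g)).injective
    rw [map_mul, map_mul, AlgEquiv.apply_symm_apply]
    exact hc _ (mem_QM.1 hY)

theorem q_com : ∀ T : MC (2 * g), (∀ X ∈ QM 𝔥, T * X = X * T) →
    ∀ X ∈ QM A.NA, T * X = X * T := by
  intro T hT X hX
  apply (matE (2 * g)).injective
  rw [map_mul, map_mul]
  refine h.cx_com _ (fun Y hY => ?_) _ (mem_QM.1 hX)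
  have h1 := hT ((matE (2 * g)).symm Y) (by rw [mem_QM, AlgEquiv.apply_symm_apply]; exact hY)
  have h2 := congrArg (matE (2 * g)) h1
  rwa [map_mul, map_mul, AlgEquiv.apply_symm_apply] at h2

end Full

/-- The conjugate of the factor by `σ` is compact: it commutes with the complex structure. -/
def CptAt (A : AbVar g) {n : ℕ} (φ : Fin n → S →ₗ[ℂ] MC (2 * g)) (σ : ℂ ≃+* ℂ) (i : Fin n) :
    Prop :=
  ∀ a, cR (JM A) * sg σ (φ i a) = sg σ (φ i a) * cR (JM A)

/-- **Type `A_1`, in weakly separated position.** -/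
structure WeakA1 (A : AbVar g) {n : ℕ} (φ : Fin n → S →ₗ[ℂ] MC (2 * g)) : Prop where
  typ : TypeA0 φ (QM A.NA)
  pair : ∀ i k, i ≠ k → Sep φ (QM A.NA) i k ∨
    ∃ σ : ℂ ≃+* ℂ, ¬ (CptAt A φ σ i ↔ CptAt A φ σ k)

/-- There are no links. -/
theorem WeakA1.no_link {n : ℕ} {φ : Fin n → S →ₗ[ℂ] MC (2 * g)} (hA : WeakA1 A φ)
    (h : A.Full 𝔥) {i k : Fin n} (hik : i ≠ k) : ¬ Link φ (QM A.NA) (QM 𝔥) i k := by
  rcases hA.pair i k hik with hs | ⟨σ, hσ⟩
  · exact hA.typ.no_theta_pair (QM_mono h.le) (q_com h) hik hs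
  · intro hl
    have ht := hA.typ.conj (σ := σ) (QM_sg σ) (QM_sg σ.symm)
    have hl' := hl.conj (σ := σ) (QM_sg σ) (QM_sg σ.symm)
    have hsur := ht.sur (QM_mono h.le) (QM_mono h.der_le) (q_br h) (q_perf h) (q_dec h) (q_com h)
    rw [← MM_VR] at ht hl' hsur
    rw [← MM_VR (𝔥 := 𝔥)] at hl' hsur
    refine A1.no_link ht (rd A) (VR_mono h.le)
      hsur ?_ hl'
    rw [cpt_conj, cpt_conj]
    exact hσ

/-- **Theorem.** A full subalgebra contains the derived algebra. -/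
theorem WeakA1.der_le {n : ℕ} {φ : Fin n → S →ₗ[ℂ] MC (2 * g)} (hA : WeakA1 A φ)
    (h : A.Full 𝔥) : der A.NA ≤ 𝔥 := by
  unfold der
  refine Submodule.span_le.2 ?_
  rintro _ ⟨X, hX, Y, hY, rfl⟩
  refine mem_of_bc ?_
  have h1 := hA.typ.br_mem (QM_mono h.le) (QM_mono h.der_le) (q_br h) (q_perf h) (q_dec h)
    (q_com h) (fun i k hik => hA.no_link h hik)
    (X := toC X) (Y := toC Y) (Submodule.subset_span ⟨X, hX, rfl⟩)
    (Submodule.subset_span ⟨Y, hY, rfl⟩)
  rw [mem_QM, map_sub, map_mul, map_mul, matE_toC, matE_toC] at h1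
  rw [bc_br]
  exact h1

end Pool.Agent.Run7.h358.A1
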