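import Pool.Agent.Run7.h358.A1.Tw

set_option autoImplicit false
set_option linter.unusedSectionVars false

/-!
# Real Lie algebras with a complex structure and a positive definite form

`V` is a real Lie algebra of matrices which contains `J`, where `J ^ 2 = -1`, and the adjoint of
`X ∈ V` for a positive definite form is `J X J`.
-/

open Matrix

noncomputable section

namespace Pool.Agent.Run7.h358.A1

open Pool.Agent.Y102.TA

variable {N : ℕ}

/-- complex matrices -/
abbrev MC (N : ℕ) : Type := Matrix (Fin N) (Fin N) ℂ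

/-- real matrices -/
abbrev MR (N : ℕ) : Type := Matrix (Fin N) (Fin N) ℝ

/-- the complex matrix of a real matrix -/
def cR (X : MR N) : MC N := X.map (algebraMap ℝ ℂ)

/-- the complex conjugate -/
def cj (X : MC N) : MC N := X.map (starRingEnd ℂ)

theorem cR_mul (X Y : MR N) : cR (X * Y) = cR X * cR Y := Matrix.map_mul

theorem cR_add (X Y : MR N) : cR (X + Y) = cR X + cR Y := by
  ext i j
  simp [cR]

theorem cR_sub (X Y : MR N) : cR (X - Y) = cR X - cR Y := by
  ext i j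
  simp [cR]

theorem cR_smul (c : ℝ) (X : MR N) : cR (c • X) = (c : ℂ) • cR X := by
  ext i j
  simp [cR]

theorem cR_neg_one : cR (-1 : MR N) = -1 := by
  ext i j
  simp only [cR, Matrix.map_apply, Matrix.neg_apply, map_neg]
  by_cases h : i = j
  · subst h
    simp
  · simp [Matrix.one_apply_ne h]

theorem cj_mul (X Y : MC N) : cj (X * Y) = cj X * cj Y := Matrix.map_mul

theorem cj_add (X Y : MC N) : cj (X + Y) = cj X + cj Y := by
  ext i j
  simp [cj]

theorem cj_sub (X Y : MC N) : cj (X - Y) = cj X - cj Y := by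
  ext i j
  simp [cj]

theorem cj_smul (c : ℂ) (X : MC N) : cj (c • X) = starRingEnd ℂ c • cj X := by
  ext i j
  simp [cj]

theorem cj_zero : cj (0 : MC N) = 0 := by
  ext i j
  simp [cj]

theorem cj_cj (X : MC N) : cj (cj X) = X := by
  ext i j
  simp [cj]

theorem cj_cR (X : MR N) : cj (cR X) = cR X := by
  ext i j
  simp [cj, cR]

/-- the complex span of a real space of matrices -/
def MM (V : Submodule ℝ (MR N)) : Submodule ℂ (MC N) :=
  Submodule.span ℂ {Y | ∃ X ∈ V, Y = cR X}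

theorem cR_mem {V : Submodule ℝ (MR N)} {X : MR N} (h : X ∈ V) : cR X ∈ MM V :=
  Submodule.subset_span ⟨X, h, rfl⟩

theorem MM_mono {V W : Submodule ℝ (MR N)} (h : V ≤ W) : MM V ≤ MM W :=
  Submodule.span_mono fun _ ⟨X, hX, he⟩ => ⟨X, h hX, he⟩

theorem MM_parts {V : Submodule ℝ (MR N)} {X : MC N} (h : X ∈ MM V) :
    ∃ a ∈ V, ∃ b ∈ V, X = cR a + Complex.I • cR b := by
  induction h using Submodule.span_induction with
  | mem X hX =>
    obtain ⟨a, ha, rfl⟩ := hX
    refine ⟨a, ha, 0, V.zero_mem, ?_⟩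
    ext i j
    simp [cR]
  | zero =>
    refine ⟨0, V.zero_mem, 0, V.zero_mem, ?_⟩
    ext i j
    simp [cR]
  | add X Y _ _ hX hY =>
    obtain ⟨a, ha, b, hb, rfl⟩ := hX
    obtain ⟨a', ha', b', hb', rfl⟩ := hY
    refine ⟨a + a', V.add_mem ha ha', b + b', V.add_mem hb hb', ?_⟩
    rw [cR_add, cR_add, smul_add]
    abel
  | smul c X _ hX =>
    obtain ⟨a, ha, b, hb, rfl⟩ := hX
    refine ⟨c.re • a - c.im • b, V.sub_mem (V.smul_mem _ ha) (V.smul_mem _ hb),
      c.im • a + c.re • b, V.add_mem (V.smul_mem _ ha) (V.smul_mem _ hb), ?_⟩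
    rw [cR_sub, cR_add, cR_smul, cR_smul, cR_smul, cR_smul]
    conv_lhs => rw [← Complex.re_add_im c]
    have hI : Complex.I * Complex.I = -1 := Complex.I_mul_I
    ext i j
    simp only [Matrix.smul_apply, Matrix.add_apply, Matrix.sub_apply, smul_eq_mul]
    linear_combination ((c.im : ℂ) * cR b i j) * hI

/-- the data -/
structure RD (J Pm : MR N) (V : Submodule ℝ (MR N)) : Prop where
  sq : J * J = -1
  sym : ∀ i k, Pm i k = Pm k i
  pos : ∀ a : Fin N → ℝ, a ≠ 0 → 0 < ∑ i, ∑ k, a i * Pm i k * a k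
  adj : ∀ X ∈ V, Xᵀ * Pm = Pm * (J * X * J)
  br : ∀ X ∈ V, ∀ Y ∈ V, X * Y - Y * X ∈ V
  mem : J ∈ V

/-- the hermitian form -/
def hv (Pm : MR N) (v : Fin N → ℂ) : ℂ := ∑ i, ∑ k, v i * Pm i k * starRingEnd ℂ (v k)

variable {J Pm : MR N} {V : Submodule ℝ (MR N)}

theorem RD.hv_eq (h : RD J Pm V) (v : Fin N → ℂ) : hv Pm v =
    (((∑ i, ∑ k, (v i).re * Pm i k * (v k).re) + ∑ i, ∑ k, (v i).im * Pm i k * (v k).im : ℝ) :
      ℂ) := by
  have h1 : ∑ i, ∑ k, ((v i).im * Pm i k * (v k).re - (v i).re * Pm i k * (v k).im) = 0 := by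
    simp only [Finset.sum_sub_distrib]
    rw [sub_eq_zero, Finset.sum_comm]
    refine Finset.sum_congr rfl fun i _ => Finset.sum_congr rfl fun k _ => ?_
    rw [h.sym k i]
    ring
  apply Complex.ext
  · rw [Complex.ofReal_re, hv, Complex.re_sum, ← Finset.sum_add_distrib]
    refine Finset.sum_congr rfl fun i _ => ?_
    rw [Complex.re_sum, ← Finset.sum_add_distrib]
    refine Finset.sum_congr rfl fun k _ => ?_
    simp
  · rw [Complex.ofReal_im, hv, Complex.im_sum, ← h1]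
    refine Finset.sum_congr rfl fun i _ => ?_
    rw [Complex.im_sum]
    refine Finset.sum_congr rfl fun k _ => ?_
    simp
    ring

theorem RD.nonneg' (h : RD J Pm V) (a : Fin N → ℝ) : 0 ≤ ∑ i, ∑ k, a i * Pm i k * a k := by
  by_cases ha : a = 0
  · subst ha
    simp
  · exact (h.pos a ha).le

theorem RD.hv_pos (h : RD J Pm V) {v : Fin N → ℂ} (hne : v ≠ 0) :
    ∃ t : ℝ, 0 < t ∧ hv Pm v = t := by
  refine ⟨_, ?_, h.hv_eq v⟩
  by_cases h1 : (fun i => (v i).re) = 0
  · have h2 : (fun i => (v i).im) ≠ 0 := by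
      intro h3
      apply hne
      funext i
      exact Complex.ext (congrFun h1 i) (congrFun h3 i)
    exact add_pos_of_nonneg_of_pos (h.nonneg' _) (h.pos _ h2)
  · exact add_pos_of_pos_of_nonneg (h.pos _ h1) (h.nonneg' _)

theorem RD.hv_nonneg (h : RD J Pm V) (v : Fin N → ℂ) : ∃ t : ℝ, 0 ≤ t ∧ hv Pm v = t :=
  ⟨_, add_nonneg (h.nonneg' _) (h.nonneg' _), h.hv_eq v⟩

/-- the values of a sesquilinear form -/
def hB (P : MC N) (v : Fin N → ℂ) : ℂ := v ⬝ᵥ (P *ᵥ fun i => starRingEnd ℂ (v i))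

theorem hv_hB (Pm : MR N) (v : Fin N → ℂ) : hv Pm v = hB (cR Pm) v := by
  unfold hv hB
  simp only [dotProduct, Matrix.mulVec, Finset.mul_sum]
  refine Finset.sum_congr rfl fun i _ => Finset.sum_congr rfl fun k _ => ?_
  rw [← mul_assoc]
  rfl

theorem cj_mulVec (Z : MC N) (v : Fin N → ℂ) :
    (fun i => starRingEnd ℂ ((Z *ᵥ v) i)) = cj Z *ᵥ fun i => starRingEnd ℂ (v i) := by
  funext i
  simp only [Matrix.mulVec, dotProduct, map_sum, map_mul]
  rfl

theorem hB_mul (P Z : MC N) (v : Fin N → ℂ) : hB P (Z *ᵥ v) = hB (Zᵀ * P * cj Z) v := by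
  unfold hB
  rw [cj_mulVec, Matrix.mulVec_mulVec, Matrix.mul_assoc Zᵀ, ← Matrix.mulVec_mulVec _ Zᵀ,
    Matrix.dotProduct_mulVec v Zᵀ, Matrix.vecMul_transpose]

theorem hB_zero (v : Fin N → ℂ) : hB (0 : MC N) v = 0 := by
  unfold hB
  rw [Matrix.zero_mulVec, dotProduct_zero]

/-- A matrix with Gram matrix zero is zero. -/
theorem RD.gram (h : RD J Pm V) {Z : MC N} (h0 : Zᵀ * cR Pm * cj Z = 0) : Z = 0 := by
  have h1 : ∀ v : Fin N → ℂ, Z *ᵥ v = 0 := by
    intro v
    by_contra hne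
    obtain ⟨t, ht, h2⟩ := h.hv_pos hne
    rw [hv_hB, hB_mul, h0, hB_zero] at h2
    exact ht.ne (by exact_mod_cast h2)
  ext i j
  have h2 := congrFun (h1 (Pi.single j 1)) i
  rw [Matrix.mulVec_single_one] at h2
  exact h2

/-! ### The adjoint -/

/-- the adjoint -/
def dag (J : MR N) (X : MC N) : MC N := cR J * cj X * cR J

theorem RD.cJ (h : RD J Pm V) : cR J * cR J = -1 := by
  rw [← cR_mul, h.sq, cR_neg_one]

theorem RD.adjC (h : RD J Pm V) {X : MC N} (hX : X ∈ MM V) :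
    Xᵀ * cR Pm = cR Pm * cj (dag J X) := by
  have h1 : cj (dag J X) = cR J * X * cR J := by
    unfold dag
    rw [cj_mul, cj_mul, cj_cj, cj_cR]
  rw [h1]
  clear h1
  induction hX using Submodule.span_induction with
  | mem X hX =>
    obtain ⟨a, ha, rfl⟩ := hX
    have h2 := congrArg cR (h.adj a ha)
    rw [cR_mul, cR_mul, cR_mul, cR_mul] at h2
    exact h2
  | zero => rw [Matrix.transpose_zero, Matrix.zero_mul, Matrix.mul_zero, Matrix.zero_mul,
      Matrix.mul_zero]
  | add X Y _ _ hX hY =>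
    rw [Matrix.transpose_add, Matrix.add_mul, hX, hY, ← Matrix.mul_add, Matrix.mul_add (cR J),
      Matrix.add_mul]
  | smul c X _ hX =>
    rw [Matrix.transpose_smul, Matrix.smul_mul, hX, Matrix.mul_smul, Matrix.smul_mul,
      Matrix.mul_smul]

theorem dag_add (X Y : MC N) : dag J (X + Y) = dag J X + dag J Y := by
  unfold dag
  rw [cj_add, Matrix.mul_add, Matrix.add_mul]

theorem dag_sub (X Y : MC N) : dag J (X - Y) = dag J X - dag J Y := by
  unfold dag
  rw [cj_sub, Matrix.mul_sub, Matrix.sub_mul]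

theorem dag_zero : dag J (0 : MC N) = 0 := by
  unfold dag
  rw [cj_zero, Matrix.mul_zero, Matrix.zero_mul]

theorem dag_smul (c : ℂ) (X : MC N) : dag J (c • X) = starRingEnd ℂ c • dag J X := by
  unfold dag
  rw [cj_smul, Matrix.mul_smul, Matrix.smul_mul]

theorem dag_sum {ι : Type} (s : Finset ι) (f : ι → MC N) :
    dag J (∑ i ∈ s, f i) = ∑ i ∈ s, dag J (f i) := by
  classical
  induction s using Finset.induction_on with
  | empty => rw [Finset.sum_empty, Finset.sum_empty, dag_zero]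
  | insert a s ha ih => rw [Finset.sum_insert ha, Finset.sum_insert ha, dag_add, ih]

theorem RD.dag_dag (h : RD J Pm V) (X : MC N) : dag J (dag J X) = X := by
  unfold dag
  rw [cj_mul, cj_mul, cj_cj, cj_cR]
  calc cR J * (cR J * X * cR J) * cR J = (cR J * cR J) * X * (cR J * cR J) := by
        simp only [Matrix.mul_assoc]
    _ = X := by rw [h.cJ]; simp

theorem RD.dag_br (h : RD J Pm V) (X Y : MC N) :
    dag J (X * Y - Y * X) = dag J Y * dag J X - dag J X * dag J Y := by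
  have e : ∀ A B : MC N, cR J * A * cR J * (cR J * B * cR J) = -(cR J * (A * B) * cR J) := by
    intro A B
    calc cR J * A * cR J * (cR J * B * cR J) = cR J * A * (cR J * cR J) * B * cR J := by
          simp only [Matrix.mul_assoc]
      _ = _ := by rw [h.cJ]; simp [Matrix.mul_assoc]
  unfold dag
  rw [e, e, cj_sub, cj_mul, cj_mul, Matrix.mul_sub, Matrix.sub_mul]
  abel

theorem RD.brC (h : RD J Pm V) {X Y : MC N} (hX : X ∈ MM V) (hY : Y ∈ MM V) :
    X * Y - Y * X ∈ MM V := by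
  induction hX using Submodule.span_induction with
  | mem X hX =>
    obtain ⟨a, ha, rfl⟩ := hX
    induction hY using Submodule.span_induction with
    | mem Y hY =>
      obtain ⟨b, hb, rfl⟩ := hY
      rw [← cR_mul, ← cR_mul, ← cR_sub]
      exact cR_mem (h.br a ha b hb)
    | zero => rw [Matrix.mul_zero, Matrix.zero_mul, sub_zero]; exact Submodule.zero_mem _
    | add Y Z _ _ hY hZ =>
      have h1 := Submodule.add_mem _ hY hZ
      convert h1 using 1
      rw [Matrix.mul_add, Matrix.add_mul]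
      abel
    | smul c Y _ hY =>
      have h1 := Submodule.smul_mem _ c hY
      convert h1 using 1
      rw [Matrix.mul_smul, Matrix.smul_mul, smul_sub]
  | zero => rw [Matrix.mul_zero, Matrix.zero_mul, sub_zero]; exact Submodule.zero_mem _
  | add X Z _ _ hX hZ =>
    have h1 := Submodule.add_mem _ hX hZ
    convert h1 using 1
    rw [Matrix.mul_add, Matrix.add_mul]
    abel
  | smul c X _ hX =>
    have h1 := Submodule.smul_mem _ c hX
    convert h1 using 1
    rw [Matrix.mul_smul, Matrix.smul_mul, smul_sub]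

theorem MM_cj {X : MC N} (hX : X ∈ MM V) : cj X ∈ MM V := by
  induction hX using Submodule.span_induction with
  | mem X hX =>
    obtain ⟨a, ha, rfl⟩ := hX
    rw [cj_cR]
    exact cR_mem ha
  | zero => rw [cj_zero]; exact Submodule.zero_mem _
  | add X Y _ _ hX hY => rw [cj_add]; exact Submodule.add_mem _ hX hY
  | smul c X _ hX => rw [cj_smul]; exact Submodule.smul_mem _ _ hX

/-- `J X J` in terms of brackets -/
theorem RD.JXJ (h : RD J Pm V) (X : MC N) : cR J * X * cR J =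
    -X - (2⁻¹ : ℂ) • (cR J * (cR J * X - X * cR J) - (cR J * X - X * cR J) * cR J) := by
  have e1 : cR J * (cR J * X - X * cR J) - (cR J * X - X * cR J) * cR J =
      (-2 : ℂ) • X + (-2 : ℂ) • (cR J * X * cR J) := by
    have h1 : cR J * (cR J * X) = -X := by rw [← Matrix.mul_assoc, h.cJ]; simp
    have h2 : X * cR J * cR J = -X := by rw [Matrix.mul_assoc, h.cJ]; simp
    rw [Matrix.mul_sub, Matrix.sub_mul, h1, h2, ← Matrix.mul_assoc (cR J) X (cR J)]
    module
  rw [e1]
  module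

theorem RD.dag_mem (h : RD J Pm V) {X : MC N} (hX : X ∈ MM V) : dag J X ∈ MM V := by
  unfold dag
  rw [h.JXJ]
  have hc := MM_cj hX
  have h1 := h.brC (cR_mem h.mem) hc
  exact Submodule.sub_mem _ (Submodule.neg_mem _ hc)
    (Submodule.smul_mem _ _ (h.brC (cR_mem h.mem) h1))

/-- A nilpotent normal element is zero. -/
theorem RD.normal (h : RD J Pm V) {Y : MC N} (hY : Y ∈ MM V) (h2 : Y * Y = 0)
    (hc : Y * dag J Y = dag J Y * Y) : Y = 0 := by
  have e1 := h.adjC hY
  have e2 : (dag J Y)ᵀ * cR Pm = cR Pm * cj Y := by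
    have h3 := h.adjC (h.dag_mem hY)
    rwa [h.dag_dag] at h3
  have h3 : dag J Y * Y = 0 := by
    apply h.gram
    rw [Matrix.transpose_mul, Matrix.mul_assoc Yᵀ, e2, ← Matrix.mul_assoc Yᵀ, e1, cj_mul]
    have h4 : cR Pm * cj (dag J Y) * cj Y * (cj (dag J Y) * cj Y) =
        cR Pm * cj (dag J Y * (Y * dag J Y) * Y) := by
      simp only [cj_mul, Matrix.mul_assoc]
    rw [h4, hc, Matrix.mul_assoc, Matrix.mul_assoc, h2, Matrix.mul_zero, Matrix.mul_zero, cj_zero,
      Matrix.mul_zero]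
  apply h.gram
  rw [e1, Matrix.mul_assoc, ← cj_mul, h3, cj_zero, Matrix.mul_zero]

/-- The sign of the square of a self-adjoint or skew-adjoint element. -/
theorem RD.sign (h : RD J Pm V) {Y e : MC N} (hY : Y ∈ MM V) (he : e * e = e) (he0 : e ≠ 0)
    {ε : ℝ} (hd : dag J Y = (ε : ℂ) • Y) {c : ℂ} (h2 : Y * Y = c • e) (hYe : Y * e = Y) :
    ∃ t : ℝ, (t : ℂ) = ε * c ∧ 0 ≤ t ∧ (t = 0 → Y = 0) := by
  have e1 : Yᵀ * cR Pm * cj Y = ((ε : ℂ) * starRingEnd ℂ c) • (cR Pm * cj e) := by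
    rw [h.adjC hY, hd, cj_smul, Complex.conj_ofReal, Matrix.mul_smul, Matrix.smul_mul,
      Matrix.mul_assoc, ← cj_mul, h2, cj_smul, Matrix.mul_smul, smul_smul]
  obtain ⟨v, hv0, hev⟩ : ∃ v : Fin N → ℂ, v ≠ 0 ∧ e *ᵥ v = v := by
    by_contra hcon
    push Not at hcon
    apply he0
    ext i j
    have h3 : e *ᵥ (e *ᵥ Pi.single j 1) = e *ᵥ Pi.single j 1 := by
      rw [Matrix.mulVec_mulVec, he]
    by_contra h4
    refine hcon (e *ᵥ Pi.single j 1) (fun h5 => h4 ?_) h3
    have h6 := congrFun h5 i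
    rw [Matrix.mulVec_single_one] at h6
    exact h6
  have key : ∀ v : Fin N → ℂ, e *ᵥ v = v →
      hv Pm (Y *ᵥ v) = (ε : ℂ) * starRingEnd ℂ c * hv Pm v := by
    intro v hev
    rw [hv_hB, hB_mul, e1, hv_hB]
    unfold hB
    rw [Matrix.smul_mulVec, dotProduct_smul, smul_eq_mul, ← Matrix.mulVec_mulVec, ← cj_mulVec, hev]
  obtain ⟨t, ht, h3⟩ := h.hv_pos hv0
  obtain ⟨s, hs, h4⟩ := h.hv_nonneg (Y *ᵥ v)
  have h5 := key v hev
  rw [h3, h4] at h5
  have ht' : (t : ℂ) ≠ 0 := by exact_mod_cast ht.ne'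
  have h6 : (ε : ℂ) * starRingEnd ℂ c = ((s / t : ℝ) : ℂ) := by
    rw [Complex.ofReal_div, eq_div_iff ht']
    exact h5.symm
  have h7 : (ε : ℂ) * c = ((s / t : ℝ) : ℂ) := by
    have h8 := congrArg (starRingEnd ℂ) h6
    rw [map_mul, Complex.conj_conj, Complex.conj_ofReal, Complex.conj_ofReal] at h8
    exact h8
  refine ⟨s / t, h7.symm, div_nonneg hs ht.le, fun h0 => ?_⟩
  have h8 : ∀ v : Fin N → ℂ, e *ᵥ v = v → Y *ᵥ v = 0 := by
    intro v hev
    by_contra hne
    obtain ⟨t', ht', h9⟩ := h.hv_pos hne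
    rw [key v hev, h6, h0, Complex.ofReal_zero, zero_mul] at h9
    exact ht'.ne (by exact_mod_cast h9)
  rw [← hYe]
  ext i j
  have h9 := congrFun (h8 (e *ᵥ Pi.single j 1) (by rw [Matrix.mulVec_mulVec, he])) i
  rw [Matrix.mulVec_mulVec, Matrix.mulVec_single_one] at h9
  exact h9

end Pool.Agent.Run7.h358.A1
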