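import Pool.Agent.Run7.h358.A1.Real

set_option autoImplicit false
set_option linter.unusedSectionVars false

/-!
# Compact and noncompact factors are not linked: the noncompact factors
-/

open Matrix

noncomputable section

namespace Pool.Agent.Run7.h358.A1

open Pool.Agent.Y102.TA

variable {N : ℕ} {I : Type} [Fintype I] [DecidableEq I] {φ : I → S →ₗ[ℂ] MC N}
  {J Pm : MR N} {V W : Submodule ℝ (MR N)}

/-- the real components -/
def Re (φ : I → S →ₗ[ℂ] MC N) (V W : Submodule ℝ (MR N)) (k : I) (x : S) : Prop :=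
  ∃ a ∈ W, ∃ ξ, Dec φ (MM V) (cR a) ξ ∧ ξ k = x

section Dag

variable (h : TypeA0 φ (MM V)) (hR : RD J Pm V)
include h hR

/-- the adjoint of a real component, in terms of the component of the complex structure -/
theorem dag_re {k : I} {ηJ : I → S} (hη : Dec φ (MM V) (cR J) ηJ) {γ : ℂ}
    (hγ : ηJ k * ηJ k = γ • (1 : S)) {x : S} (hx : Re φ V V k x) :
    dag J (φ k x) = φ k (-x - γ • x + ηJ k * x * ηJ k) := by
  obtain ⟨a, ha, ξ, hξ, rfl⟩ := hx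
  obtain ⟨y, hy1, hy⟩ := dec_dag h hR hξ
  have hmJ : cR J ∈ MM V := cR_mem hR.mem
  have hma : cR a ∈ MM V := cR_mem ha
  have h1 := h.dec_br hmJ hma hη hξ
  have h2 := h.dec_br hmJ (hR.brC hmJ hma) hη h1
  have h3 : Dec φ (MM V) (dag J (cR a)) ((-1 : ℂ) • ξ + (-(2⁻¹ : ℂ)) • fun i =>
      ηJ i * (ηJ i * ξ i - ξ i * ηJ i) - (ηJ i * ξ i - ξ i * ηJ i) * ηJ i) := by
    have e1 : dag J (cR a) = (-1 : ℂ) • cR a + (-(2⁻¹ : ℂ)) •
        (cR J * (cR J * cR a - cR a * cR J) - (cR J * cR a - cR a * cR J) * cR J) := by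
      unfold dag
      rw [cj_cR, hR.JXJ]
      module
    rw [e1]
    exact (hξ.smul _).add (h2.smul _)
  have h4 := congrFun (h.uniq hy h3) k
  rw [hy1, h4]
  congr 1
  have e2 : ηJ k * (ηJ k * ξ k) = γ • ξ k := by rw [← mul_assoc, hγ, smul_mul_assoc, one_mul]
  have e3 : ξ k * ηJ k * ηJ k = γ • ξ k := by rw [mul_assoc, hγ, mul_smul_comm, mul_one]
  change (-1 : ℂ) • ξ k + (-(2⁻¹ : ℂ)) •
      (ηJ k * (ηJ k * ξ k - ξ k * ηJ k) - (ηJ k * ξ k - ξ k * ηJ k) * ηJ k) = _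
  rw [mul_sub, sub_mul, e2, e3, ← mul_assoc]
  module

theorem re_zero_of_I {k : I} {ηJ : I → S} (hη : Dec φ (MM V) (cR J) ηJ) {x : S}
    (hx : Re φ V V k x) (hx' : Re φ V V k (Complex.I • x)) : x = 0 := by
  obtain ⟨γ, hγ⟩ := sq_eq (hη.1 k)
  have h1 := dag_re h hR hη hγ hx
  have h2 := dag_re h hR hη hγ hx'
  rw [map_smul, dag_smul, h1, Complex.conj_I] at h2
  have h3 : φ k (-(Complex.I • x) - γ • Complex.I • x + ηJ k * (Complex.I • x) * ηJ k) =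
      Complex.I • φ k (-x - γ • x + ηJ k * x * ηJ k) := by
    rw [← map_smul]
    congr 1
    rw [mul_smul_comm, smul_mul_assoc]
    module
  rw [h3] at h2
  have h4 : (2 * Complex.I) • φ k (-x - γ • x + ηJ k * x * ηJ k) = 0 := by
    have h5 : (2 * Complex.I) • φ k (-x - γ • x + ηJ k * x * ηJ k) =
        Complex.I • φ k (-x - γ • x + ηJ k * x * ηJ k) -
          (-Complex.I) • φ k (-x - γ • x + ηJ k * x * ηJ k) := by module
    rw [h5, h2, sub_self]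
  have h5 : φ k (-x - γ • x + ηJ k * x * ηJ k) = 0 := by
    rcases smul_eq_zero.1 h4 with h6 | h6
    · exact absurd h6 (mul_ne_zero two_ne_zero Complex.I_ne_zero)
    · exact h6
  rw [h5] at h1
  have h6 := hR.dag_dag (φ k x)
  rw [h1, dag_zero] at h6
  exact h.inj h6.symm

/-- The real components of the subalgebra are all real components. -/
theorem re_sub (hWV : W ≤ V) {k : I}
    (hsur : ∀ x : S, x.trace = 0 → ∃ ξ ∈ XX φ (MM V) (MM W), ξ k = x) {x : S}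
    (hx : Re φ V V k x) : Re φ V W k x := by
  obtain ⟨ηJ, hη⟩ := h.dec _ (cR_mem hR.mem)
  obtain ⟨a, ha, ξ, hξ, rfl⟩ := hx
  obtain ⟨ξ', ⟨Y, hY, hξ'⟩, he⟩ := hsur (ξ k) (hξ.1 k)
  obtain ⟨b, hb, c, hc, rfl⟩ := MM_parts hY
  obtain ⟨β, hβ⟩ := h.dec _ (cR_mem (hWV hb))
  obtain ⟨δ, hδ⟩ := h.dec _ (cR_mem (hWV hc))
  have h1 : ξ' = β + Complex.I • δ := h.uniq hξ' (hβ.add (hδ.smul _))
  have h2 : ξ k = β k + Complex.I • δ k := by
    rw [← he, h1]
    rfl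
  have h3 : Re φ V V k (Complex.I • δ k) := by
    refine ⟨a - b, V.sub_mem ha (hWV hb), ξ + (-1 : ℂ) • β, ?_, ?_⟩
    · have e1 : cR (a - b) = cR a + (-1 : ℂ) • cR b := by
        rw [cR_sub]
        module
      rw [e1]
      exact hξ.add (hβ.smul _)
    · change ξ k + (-1 : ℂ) • β k = _
      rw [h2]
      module
  have h4 := re_zero_of_I h hR hη ⟨c, hWV hc, δ, hδ, rfl⟩ h3
  rw [h4, smul_zero, add_zero] at h2
  exact ⟨b, hb, β, hβ, h2.symm⟩

/-- **A noncompact factor** contains real elements with a positive square. -/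
theorem ncpt (hWV : W ≤ V) {k : I}
    (hsur : ∀ x : S, x.trace = 0 → ∃ ξ ∈ XX φ (MM V) (MM W), ξ k = x)
    (hn : ¬ ∀ a, cR J * φ k a = φ k a * cR J) :
    ∃ a ∈ W, ∃ ξ, Dec φ (MM V) (cR a) ξ ∧ ∃ t : ℝ, 0 < t ∧ ξ k * ξ k = (t : ℂ) • (1 : S) := by
  obtain ⟨ηJ, hη⟩ := h.dec _ (cR_mem hR.mem)
  have hj0 : ηJ k ≠ 0 := by
    intro h0
    apply hn
    intro a
    have h1 := h.other hη k a
    rwa [h0, map_zero, sub_zero] at h1
  obtain ⟨γ, hγ⟩ := sq_eq (hη.1 k)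
  -- the component of the complex structure
  have hjre : Re φ V V k (ηJ k) := ⟨J, hR.mem, ηJ, hη, rfl⟩
  have hdj : dag J (φ k (ηJ k)) = φ k (-ηJ k) := by
    rw [dag_re h hR hη hγ hjre]
    congr 1
    rw [hγ, smul_mul_assoc, one_mul]
    abel
  obtain ⟨t, ht1, ht2, ht3⟩ := hR.sign (Y := φ k (ηJ k)) (e := φ k 1) (ε := -1) (c := γ)
    (h.mem k _ (hη.1 k)) (by rw [← h.mul, mul_one]) (h.one k)
    (by rw [hdj, map_neg]; simp) (by rw [← h.mul, hγ, map_smul]) (by rw [← h.mul, mul_one])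
  have ht : 0 < t := lt_of_le_of_ne ht2 fun h0 => hj0 (h.inj (ht3 h0.symm))
  have hγt : γ = ((-t : ℝ) : ℂ) := by
    push_cast at ht1 ⊢
    rw [ht1]
    ring
  -- a real component which does not commute
  obtain ⟨x, hx, hxc⟩ : ∃ x, Re φ V V k x ∧ ηJ k * x - x * ηJ k ≠ 0 := by
    by_contra hcon
    push Not at hcon
    apply hj0
    refine h.eq_zero_of_comm (hη.1 k) (i := k) fun y hy => ?_
    obtain ⟨ξ', ⟨Y, hY, hξ'⟩, he⟩ := hsur y hy
    obtain ⟨b, hb, c, hc, rfl⟩ := MM_parts hY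
    obtain ⟨β, hβ⟩ := h.dec _ (cR_mem (hWV hb))
    obtain ⟨δ, hδ⟩ := h.dec _ (cR_mem (hWV hc))
    have h1 : ξ' = β + Complex.I • δ := h.uniq hξ' (hβ.add (hδ.smul _))
    have h2 : y = β k + Complex.I • δ k := by
      rw [← he, h1]
      rfl
    have h3 := hcon (β k) ⟨b, hWV hb, β, hβ, rfl⟩
    have h4 := hcon (δ k) ⟨c, hWV hc, δ, hδ, rfl⟩
    rw [← h.mul, ← h.mul]
    congr 1
    rw [h2, mul_add, add_mul, sub_eq_zero.1 h3, mul_smul_comm, smul_mul_assoc, sub_eq_zero.1 h4]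
  obtain ⟨w, hw⟩ : ∃ w, w = ηJ k * x - x * ηJ k := ⟨_, rfl⟩
  rw [← hw] at hxc
  have hwre : Re φ V V k w := by
    obtain ⟨a, ha, ξ, hξ, rfl⟩ := hx
    refine ⟨J * a - a * J, hR.br J hR.mem a ha, fun i => ηJ i * ξ i - ξ i * ηJ i, ?_, hw.symm⟩
    rw [cR_sub, cR_mul, cR_mul]
    exact h.dec_br (cR_mem hR.mem) (cR_mem ha) hη hξ
  have hwt : w.trace = 0 := by rw [hw]; exact trace_br _ _
  have hjw : ηJ k * w * ηJ k = -(γ • w) := by
    have e1 : ηJ k * w = -(w * ηJ k) := by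
      rw [hw, mul_sub, sub_mul, ← mul_assoc, hγ, mul_assoc x, hγ, smul_mul_assoc, one_mul,
        mul_smul_comm, mul_one, ← mul_assoc]
      abel
    rw [e1, neg_mul, mul_assoc, hγ, mul_smul_comm, mul_one]
  have hdw : dag J (φ k w) = ((2 * t - 1 : ℝ) : ℂ) • φ k w := by
    rw [dag_re h hR hη hγ hwre, hjw, ← map_smul]
    congr 1
    rw [hγt]
    push_cast
    module
  have hw0 : φ k w ≠ 0 := fun h0 => hxc (h.inj h0)
  have ht4 : t = 1 := by
    have h1 := hR.dag_dag (φ k w)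
    rw [hdw, dag_smul, hdw, Complex.conj_ofReal, smul_smul] at h1
    have h2 : (((2 * t - 1) * (2 * t - 1) - 1 : ℝ) : ℂ) • φ k w = 0 := by
      push_cast at h1 ⊢
      rw [sub_smul, h1, one_smul, sub_self]
    have h3 := (smul_eq_zero.1 h2).resolve_right hw0
    have h4 : (2 * t - 1) * (2 * t - 1) - 1 = 0 := by exact_mod_cast h3
    have h5 : t * (t - 1) = 0 := by linarith
    rcases mul_eq_zero.1 h5 with h6 | h6
    · exact absurd h6 ht.ne'
    · linarith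
  have hdw1 : dag J (φ k w) = ((1 : ℝ) : ℂ) • φ k w := by
    rw [hdw, ht4]
    norm_num
  obtain ⟨c, hc⟩ := sq_eq hwt
  obtain ⟨u, hu1, hu2, hu3⟩ := hR.sign (Y := φ k w) (e := φ k 1) (ε := 1) (c := c)
    (h.mem k _ hwt) (by rw [← h.mul, mul_one]) (h.one k) hdw1
    (by rw [← h.mul, hc, map_smul]) (by rw [← h.mul, mul_one])
  have hu : 0 < u := lt_of_le_of_ne hu2 fun h0 => hw0 (hu3 h0.symm)
  obtain ⟨a, ha, ξ, hξ, he⟩ := re_sub h hR hWV hsur hwre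
  refine ⟨a, ha, ξ, hξ, u, hu, ?_⟩
  rw [he, hc]
  congr 1
  rw [hu1]
  push_cast
  ring

/-- **Compact and noncompact factors are not linked.** -/
theorem no_link (hWV : W ≤ V)
    (hsur : ∀ (k : I) (x : S), x.trace = 0 → ∃ ξ ∈ XX φ (MM V) (MM W), ξ k = x) {i k : I}
    (hne : ¬ ((∀ a, cR J * φ i a = φ i a * cR J) ↔ ∀ a, cR J * φ k a = φ k a * cR J)) :
    ¬ Link φ (MM V) (MM W) i k := by
  rintro ⟨Θ, h1, h2, h3⟩
  have hmem : ∀ a ∈ W, ∀ ξ, Dec φ (MM V) (cR a) ξ → ξ i = Θ (ξ k) := fun a ha ξ hξ =>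
    h3 ξ ⟨cR a, cR_mem ha, hξ⟩
  have h10 : (1 : S) ≠ 0 := one_ne_zero
  by_cases hi : ∀ a, cR J * φ i a = φ i a * cR J
  · have hk : ¬ ∀ a, cR J * φ k a = φ k a * cR J := fun hk => hne ⟨fun _ => hk, fun _ => hi⟩
    obtain ⟨a, ha, ξ, hξ, t, ht, hsq⟩ := ncpt h hR hWV (hsur k) hk
    obtain ⟨s, hs, hsq'⟩ := cpt_sq h hR hi hξ
    rw [hmem a ha ξ hξ, ← h1, hsq, map_smul, h2] at hsq'
    have h5 := smul_left_injective ℂ h10 hsq'
    have h6 : t = s := by exact_mod_cast h5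
    linarith
  · have hk : ∀ a, cR J * φ k a = φ k a * cR J := by
      by_contra hk
      exact hne ⟨fun h => absurd h hi, fun h => absurd h hk⟩
    obtain ⟨a, ha, ξ, hξ, t, ht, hsq⟩ := ncpt h hR hWV (hsur i) hi
    obtain ⟨s, hs, hsq'⟩ := cpt_sq h hR hk hξ
    rw [hmem a ha ξ hξ, ← h1, hsq', map_smul, h2] at hsq
    have h5 := smul_left_injective ℂ h10 hsq
    have h6 : s = t := by exact_mod_cast h5
    linarith

end Dag

end Pool.Agent.Run7.h358.A1
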