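import Pool.Agent.Run7.h358.A1.Om
import Pool.Agent.Run7.h358.A1.Fg
import Pool.Agent.Run7.h358.A1.Pt

set_option autoImplicit false
set_option linter.unusedSectionVars false

/-!
# The smallest torsor of the periods of a 1-motive
-/

open Matrix Pool.Agent.Y102

noncomputable section

namespace Pool.Agent.Run7.h358.FG

variable {ι : Type} [Fintype ι] [DecidableEq ι]

/-- A matrix `T` with algebraic entries such that `P T` is in all algebraic groups over `ℚ` with a torsor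
over `ℚ̄` which contains `P`. -/
theorem exists_base {P : Matrix ι ι ℂ} (hP : P.det ≠ 0) :
    ∃ (F T : Matrix ι ι ℂ) (x₀ : GL ι ℂ),
      (∀ p : MvPolynomial (ι × ι) QBar, ev P p = 0 → ev F p = 0) ∧ F * T = 1 ∧
      (∀ i j, T i j ∈ algebraicClosure ℚ ℂ) ∧ (x₀ : Matrix ι ι ℂ) = P * T ∧
      ∀ G : Subgroup (GL ι ℂ), (∃ I : Set (MvPolynomial (ι × ι) ℚ),
        ∀ x : GL ι ℂ, x ∈ G ↔ ∀ p ∈ I,
          MvPolynomial.aeval (fun b : ι × ι => (x : Matrix ι ι ℂ) b.1 b.2) p = 0) →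
        (∃ T₁ : Matrix ι ι ℂ, (∀ i j, IsAlgebraic ℚ (T₁ i j)) ∧
          ∃ y ∈ G, (y : Matrix ι ι ℂ) = P * T₁) → x₀ ∈ G := by
  obtain ⟨F, hF1, hF2, hF⟩ := exists_point P hP
  obtain ⟨T, hFT, hT'⟩ := Pool.Agent.R917.OM.alg_inv' hF1 hF2
  have hTF : T * F = 1 := mul_eq_one_comm.1 hFT
  have hTd : T.det ≠ 0 := fun h0 => by
    have h1 := congrArg Matrix.det hFT
    rw [Matrix.det_mul, h0, mul_zero, Matrix.det_one] at h1
    exact zero_ne_one h1
  obtain ⟨x₀, hx₀⟩ : ∃ x₀ : GL ι ℂ, (x₀ : Matrix ι ι ℂ) = P * T :=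
    ⟨Matrix.GeneralLinearGroup.mkOfDetNeZero (P * T) (by
      rw [Matrix.det_mul]; exact mul_ne_zero hP hTd), rfl⟩
  refine ⟨F, T, x₀, hF, hFT, hT', hx₀, ?_⟩
  rintro G ⟨I, hI⟩ ⟨T₁, hT₁, y, hy, hyT⟩
  have hd : T₁.det ≠ 0 := fun h0 => by
    have h1 : (y : Matrix ι ι ℂ).det = 0 := by
      rw [hyT, Matrix.det_mul, h0, mul_zero]
    exact (Matrix.GeneralLinearGroup.det y).ne_zero h1
  obtain ⟨y', hy'⟩ : ∃ y' : GL ι ℂ, (y' : Matrix ι ι ℂ) = F * T₁ :=
    ⟨Matrix.GeneralLinearGroup.mkOfDetNeZero (F * T₁) (by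
      rw [Matrix.det_mul]; exact mul_ne_zero hF2 hd), rfl⟩
  have h1 : y' ∈ G := by
    rw [hI]
    intro p hp
    rw [hy']
    refine point_mem hF hT₁ p ?_
    rw [← hyT]
    exact (hI y).1 hy p hp
  have h2 : x₀ * y' = y := by
    apply Units.ext
    rw [Units.val_mul, hx₀, hy', hyT, Matrix.mul_assoc, ← Matrix.mul_assoc T, hTF, Matrix.one_mul]
  have h3 : x₀ = y * y'⁻¹ := by rw [← h2, mul_inv_cancel_right]
  rw [h3]
  exact mul_mem hy (inv_mem h1)

/-! ### Rows and columns with different indices -/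

section Two

variable {κ : Type} [Fintype κ] [DecidableEq κ] (e : κ ≃ ι) {c : Matrix ι κ ℂ}

/-- The tensor power of a matrix. -/
def tk (a : ℕ) (c : Matrix ι κ ℂ) : Matrix (Fin a → ι) (Fin a → κ) ℂ :=
  Matrix.of fun J K => ∏ k, c (J k) (K k)

/-- The bijection of the indices. -/
def ee (a : ℕ) : (Fin a → κ) ≃ (Fin a → ι) := Equiv.arrowCongr (Equiv.refl _) e

theorem tpow_sub (a : ℕ) : tpow a (c.submatrix id e.symm) = (tk a c).submatrix id (ee e a).symm := by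
  ext J K
  rfl

theorem base_two (hc : (c.submatrix id e.symm).det ≠ 0) :
    ∃ (T : Matrix κ ι ℂ) (x₀ : GL ι ℂ), (∀ i j, IsAlgebraic ℚ (T i j)) ∧
      (x₀ : Matrix ι ι ℂ) = c * T ∧
      (∀ G : Subgroup (GL ι ℂ), (∃ I : Set (MvPolynomial (ι × ι) ℚ),
        ∀ x : GL ι ℂ, x ∈ G ↔ ∀ p ∈ I,
          MvPolynomial.aeval (fun b : ι × ι => (x : Matrix ι ι ℂ) b.1 b.2) p = 0) →
        (∃ T₁ : Matrix κ ι ℂ, (∀ i j, IsAlgebraic ℚ (T₁ i j)) ∧
          ∃ y ∈ G, (y : Matrix ι ι ℂ) = c * T₁) → x₀ ∈ G) ∧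
      (∀ (a b : ℕ) (t : Matrix (Fin a → ι) (Fin b → ι) ℚ),
        (∃ u : Matrix (Fin a → κ) (Fin b → κ) ℂ, (∀ i j, IsAlgebraic ℚ (u i j)) ∧
          tk a c * u = cQ t * tk b c) → x₀ ∈ stabHom t) ∧
      ∀ (a m : ℕ) (t : Matrix (Fin a → ι) (Fin m) ℚ)
        (ht : ∃ v : Matrix (Fin m) (Fin a → ι) ℚ, v * t = 1),
        (∃ (u : Matrix (Fin a → κ) (Fin m) ℂ) (d : Matrix (Fin m) (Fin m) ℂ),
          (∀ i j, IsAlgebraic ℚ (u i j)) ∧ d.det ≠ 0 ∧ tk a c * u = cQ t * d) →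
          x₀ ∈ stabSub t ht := by
  obtain ⟨F, T, x₀, hF, hFT, hT', hx₀, key⟩ := exists_base hc
  have hsub : ∀ T₁ : Matrix κ ι ℂ,
      c.submatrix id e.symm * T₁.submatrix e.symm id = c * T₁ := fun T₁ => by
    rw [Matrix.submatrix_mul_equiv, Matrix.submatrix_id_id]
  refine ⟨T.submatrix e id, x₀, fun i j => mem_algebraicClosure_iff.1 (hT' _ _), ?_, ?_, ?_, ?_⟩
  · rw [hx₀, ← hsub]
    congr 1
    ext i j
    simp
  · rintro G hG ⟨T₁, hT₁, y, hy, hyT⟩
    exact key G hG ⟨T₁.submatrix e.symm id, fun i j => hT₁ _ _, y, hy, by rw [hyT, hsub]⟩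
  · rintro a b t ⟨u, hu, h⟩
    refine stabHom_mem hF hFT hx₀ (u := u.submatrix (ee e a).symm (ee e b).symm)
      (fun i j => hu _ _) ?_
    rw [tpow_sub, tpow_sub, Matrix.submatrix_mul_equiv, h]
    ext J K
    rfl
  · rintro a m t ht ⟨u, d, hu, hd, h⟩
    have hdd : d * d⁻¹ = 1 := Matrix.mul_nonsing_inv d (isUnit_iff_ne_zero.2 hd)
    refine stabSub_mem hF hFT hx₀ ht (t := u.submatrix (ee e a).symm id)
      (fun i j => hu _ _) hdd ?_
    rw [tpow_sub, Matrix.submatrix_mul_equiv, h, Matrix.submatrix_id_id]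

end Two

end Pool.Agent.Run7.h358.FG

namespace Pool.Agent.Run7.h358.A1

open Pool.Agent.R917.OM

/-- The comparison matrix of a 1-motive is invertible. -/
theorem pq_det {g n s : ℕ} {A : AbVar g} {d : Dt g n s} : (pq A d).det ≠ 0 := by
  intro h0
  obtain ⟨y, hy, h1⟩ := Matrix.exists_mulVec_eq_zero_iff.2 h0
  apply hy
  obtain ⟨Y, hY⟩ : ∃ Y : CI g n s → ℂ, ∀ q, Y q = y (ce g n s q) := ⟨_, fun _ => rfl⟩
  have h2 : ∀ r : RI g n s, ∑ q : CI g n s, (pmat A d : Matrix (RI g n s) (CI g n s) ℂ) r q * Y q = 0 := by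
    intro r
    have h3 : ∑ i, pq A d r i * y i = 0 := congrFun h1 r
    rw [← h3]
    refine Fintype.sum_equiv (ce g n s) _ _ fun q => ?_
    rw [hY]
    unfold pq
    rw [Matrix.submatrix_apply, Equiv.symm_apply_apply, id]
  have split : ∀ F : CI g n s → ℂ, ∑ q, F q = (∑ c, F (Sum.inl c)) +
      ((∑ l, F (Sum.inr (Sum.inl l))) + ∑ i, F (Sum.inr (Sum.inr i))) := by
    intro F
    rw [Fintype.sum_sum_type]
    exact congrArg _ (Fintype.sum_sum_type _)
  have hT : ∀ l, Y (Sum.inr (Sum.inl l)) = 0 := by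
    intro l
    have h3 := h2 (Sum.inr (Sum.inl l))
    rw [split] at h3
    simp only [pmat, Matrix.of_apply, Sum.elim_inl, Sum.elim_inr, zero_mul,
      Finset.sum_const_zero, add_zero, zero_add, ite_mul, Finset.sum_ite_eq,
      Finset.mem_univ, if_true] at h3
    exact (mul_eq_zero.1 h3).resolve_left AbVar.tau_ne
  have hA : ∀ c, Y (Sum.inl c) = 0 := by
    have h3 : ∑ c, Y (Sum.inl c) • A.dR c = 0 := by
      refine A.bas.ext fun j => ?_
      have h4 := h2 (Sum.inl j)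
      rw [split] at h4
      simp only [pmat, Matrix.of_apply, Sum.elim_inl, Sum.elim_inr, zero_mul,
        Finset.sum_const_zero, add_zero, hT, mul_zero] at h4
      rw [LinearMap.sum_apply, LinearMap.zero_apply, ← h4]
      refine Finset.sum_congr rfl fun c _ => ?_
      have h5 : A.bas j = eb A j := by
        unfold AbVar.bas eb
        rw [Pi.basisFun_apply]
      rw [LinearMap.smul_apply, smul_eq_mul, mul_comm, h5]
    exact Fintype.linearIndependent_iff.1 A.indep_dR _ h3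
  have hZ : ∀ i, Y (Sum.inr (Sum.inr i)) = 0 := by
    intro i
    have h3 := h2 (Sum.inr (Sum.inr i))
    rw [split] at h3
    simpa only [pmat, Matrix.of_apply, Sum.elim_inl, Sum.elim_inr, zero_mul, hT, hA, mul_zero,
      Finset.sum_const_zero, add_zero, zero_add, ite_mul, one_mul, Finset.sum_ite_eq,
      Finset.mem_univ, if_true] using h3
  funext r
  obtain ⟨q, rfl⟩ := (ce g n s).surjective r
  rw [← hY]
  rcases q with c | l | i
  · exact hA c
  · exact hT l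
  · exact hZ i

end Pool.Agent.Run7.h358.A1
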