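import Pool.Agent.Run7.h358.A1.Tor
import Pool.Agent.Run7.h358.U2.Om

set_option autoImplicit false
set_option linter.unusedSectionVars false

/-!
# 1-motives over factors of abelian varieties of type `A_1`
-/

open Module Matrix TensorProduct

noncomputable section

namespace Pool.Agent.Run7.h358.A1

open Pool.Agent.Y102 Pool.Agent.W516.DR Pool.Agent.H204R3.GP Pool.Agent.W516.KC
  Pool.Agent.H204R3.SP Pool.Agent.TH119.MX Pool.Agent.R917 Pool.Agent.N208.AM Pool.Agent.N208.AD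
  Pool.Agent.N208.BT Pool.Agent.N208.CT Pool.Agent.N208.LC Pool.Agent.R917.OM Pool.Agent.R917.BX
  Pool.Agent.R917.DT Pool.Agent.N208.OneM

section Gen

variable {g : ℕ} {A : AbVar g} {s n : ℕ} {r : Fin s → ℕ} {B : Fin n → Ten A r}
  {N : Matrix (Fin n) (Fin n) ℝ}

theorem DerFull.der_le_der (hA : DerFull A) {𝔮 : Submodule ℚ (Module.End ℚ A.H1)}
    (hq : A.Full 𝔮) : Y102.der A.NA ≤ Y102.der 𝔮 := by
  refine full_NA.perfect.trans ?_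
  refine Submodule.span_mono ?_
  rintro _ ⟨X, hX, Y, hY, rfl⟩
  exact ⟨X, hA 𝔮 hq hX, Y, hA 𝔮 hq hY, rfl⟩

/-- The whole tangent space is a good real part. -/
theorem DerFull.rpart (hA : DerFull A) : RPart A Set.univ where
  stab := fun _ _ _ _ => Set.mem_univ _
  der := fun 𝔮 hq X hX => ⟨X, by
    refine Submodule.span_mono ?_ hX
    rintro _ ⟨Y, hY, rfl⟩
    exact ⟨Y, hA.der_le_der hq hY, rfl⟩, fun _ _ => rfl⟩

theorem domU_univ (hli : LinearIndependent ℚ B) : DomU Set.univ B N := by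
  intro p hp h0
  obtain ⟨-, h2⟩ := U2.pR_rel hp
  have h3 : p.1 = 0 := LinearMap.ext fun u => h0 u (Set.mem_univ u)
  rw [h3] at h2
  have h4 := h2.uniq hli RelR.zero
  rw [h4, zero_mul, mul_zero]

/-- If the centre is in the subalgebra then the whole Lie algebra is. -/
theorem DerFull.na_le (hA : DerFull A) {𝔮 : Submodule ℚ (Module.End ℚ A.H1)}
    (hq : A.Full 𝔮) (hc : A.CN ≤ 𝔮) : A.NA ≤ 𝔮 := by
  intro X hX
  obtain ⟨Z, hZ, d, hd, rfl, hcomm⟩ := full_NA.dec hX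
  exact 𝔮.add_mem (hc ⟨hZ, fun Y hY => (hcomm Y hY).symm⟩) (hA 𝔮 hq hd)

end Gen

section Fact

variable {g g' g'' : ℕ} {A : AbVar g} {C : AbVar g'} {D : AbVar g''} {f : A.H1 →ₗ[ℚ] C.H1}
  {p : C.H1 →ₗ[ℚ] A.H1}

/-- The centre, for factors of abelian varieties with a rigid centre. -/
theorem cn_le_fac (hA : DT.Fac A C f p) {f' : C.H1 →ₗ[ℚ] D.H1}
    {p' : D.H1 →ₗ[ℚ] C.H1} (hD : DT.Fac C D f' p') (hrig : Rigid D)
    (hz : ∀ Y ∈ C.CN, ∃ X ∈ D.CN, ∀ v, p' (X (f' v)) = Y v)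
    {𝔥 : Submodule ℚ (Module.End ℚ A.H1)}
    (hbr : ∀ X ∈ 𝔥, ∀ Y ∈ 𝔥, X * Y - Y * X ∈ 𝔥)
    (h0 : ∀ (D : Derivation QBar ℂ ℂ) (lam : ℂ →ₗ[ℚ] ℚ), X0 A.basis tau D lam ∈ 𝔥)
    (hRC : RC 𝔥) : C.CN ≤ DT.Fac.qq f p 𝔥 := by
  intro Y hY
  obtain ⟨X, hX, hXY⟩ := hz Y hY
  have hAD := U2.fac_comp hA hD
  have h1 : X ∈ DT.Fac.qq (f'.comp f) (p.comp p') 𝔥 :=
    Pool.Agent.N208.OU.CN_le (hAD.qq_full hbr h0) (hAD.qq_RC hRC) hrig hX
  refine ⟨hY.1, ?_⟩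
  change rs f p Y ∈ 𝔥
  have h2 : rs (f'.comp f) (p.comp p') X ∈ 𝔥 := h1.2
  have h3 : rs (f'.comp f) (p.comp p') X = rs f p Y := by
    refine LinearMap.ext fun v => ?_
    rw [rs_apply, rs_apply, LinearMap.comp_apply, LinearMap.comp_apply, hXY]
  rwa [h3] at h2

/-- **The complex structure.** -/
theorem DerFull.detJ (hC : DerFull C) (hA : DT.Fac A C f p)
    (hc : ∀ 𝔥 : Submodule ℚ (Module.End ℚ A.H1), (∀ X ∈ 𝔥, ∀ Y ∈ 𝔥, X * Y - Y * X ∈ 𝔥) →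
      (∀ (D : Derivation QBar ℂ ℂ) (lam : ℂ →ₗ[ℚ] ℚ), X0 A.basis tau D lam ∈ 𝔥) → RC 𝔥 →
        C.CN ≤ DT.Fac.qq f p 𝔥) : DetJ A := by
  intro 𝔥 _ hbr h0 hRC r
  have h1 := hC.na_le (hA.qq_full hbr h0) (hc 𝔥 hbr h0 hRC) (C.MA_le_NA (C.J_mem r))
  have h2 : rs f p (C.cmpE r AbVar.JJ) ∈ 𝔥 := h1.2
  rwa [hA.rs_J] at h2

end Fact

section Grp

variable {g n s : ℕ} {A : AbVarG g} {u : Fin n → Fin g → ℂ} {v : Fin s → Fin g → ℂ}
  {ℓ : Fin n → Fin s → ℂ} {G : Subgroup (GL (Betti g n s) ℂ)} {g' : ℕ} {C : AbVar g'}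
  {f : A.toAbVar.H1 →ₗ[ℚ] C.H1} {p : C.H1 →ₗ[ℚ] A.toAbVar.H1}

/-- The derived algebra. -/
theorem DerFull.om_der (hC : DerFull C) (hM : IsOneMotive A u v ℓ) (hG : IsAlgebraicSubgroup G)
    (hP : ContainsPeriods A u v ℓ G) (hfc : DT.Fac A.toAbVar C f p)
    {Z : Matrix (Betti g n s) (Betti g n s) ℚ}
    (hZ : Z ∈ derived (mtLie A u v ℓ)) (t : ℂ) :
    IsIn G (NormedSpace.exp (t • cplx Z)) :=
  U2.om_der hM hG hP hfc hC.rpart (fun _ _ => domU_univ (N208.OU.mot hfc).li) hZ t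

end Grp

end Pool.Agent.Run7.h358.A1
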