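import Pool.Agent.Run7.h358.A1.Herm

set_option autoImplicit false
set_option linter.unusedSectionVars false

/-!
# Compact and noncompact factors are not linked
-/

open Matrix

noncomputable section

namespace Pool.Agent.Run7.h358.A1

open Pool.Agent.Y102.TA

variable {N : ℕ} {I : Type} [Fintype I] [DecidableEq I] {φ : I → S →ₗ[ℂ] MC N}
  {J Pm : MR N} {V W : Submodule ℝ (MR N)}

/-- The other components commute with the factor. -/
theorem TypeA0.other {M : Submodule ℂ (MC N)} (h : TypeA0 φ M) {X : MC N} {ξ : I → S}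
    (hξ : Dec φ M X ξ) (i : I) (a : S) :
    (X - φ i (ξ i)) * φ i a = φ i a * (X - φ i (ξ i)) := by
  have e1 : X - φ i (ξ i) = (X - ∑ l, φ l (ξ l)) + ∑ l ∈ Finset.univ.erase i, φ l (ξ l) := by
    rw [← Finset.add_sum_erase _ _ (Finset.mem_univ i)]
    abel
  rw [e1, add_mul, mul_add, h.cen_phi hξ.2 i a, Finset.sum_mul, Finset.mul_sum]
  congr 1
  exact Finset.sum_congr rfl fun l hl => h.comm l i (Finset.ne_of_mem_erase hl) _ _

theorem TypeA0.comp_eq {M : Submodule ℂ (MC N)} (h : TypeA0 φ M) {X : MC N} {ξ : I → S}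
    (hξ : Dec φ M X ξ) {i : I} {y : S} (hy : y.trace = 0)
    (hc : ∀ a : S, (X - φ i y) * φ i a = φ i a * (X - φ i y)) : ξ i = y := by
  rw [← sub_eq_zero]
  refine h.eq_zero_of_comm (i := i) (by rw [Matrix.trace_sub, hξ.1, hy, sub_zero]) fun x _ => ?_
  have e1 : φ i (ξ i - y) = (X - φ i y) - (X - φ i (ξ i)) := by
    rw [map_sub]
    abel
  rw [e1, sub_mul, mul_sub, hc, h.other hξ]

theorem TypeA0.dec_single {M : Submodule ℂ (MC N)} (h : TypeA0 φ M) (i : I) {x : S}
    (hx : x.trace = 0) : Dec φ M (φ i x) (Pi.single i x) := by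
  refine ⟨fun l => ?_, ?_⟩
  · by_cases hl : l = i
    · subst hl
      rw [Pi.single_eq_same, hx]
    · rw [Pi.single_eq_of_ne hl, Matrix.trace_zero]
  · have e1 : ∑ l, φ l ((Pi.single i x : I → S) l) = φ i x := by
      rw [Finset.sum_eq_single i]
      · rw [Pi.single_eq_same]
      · intro l _ hl
        rw [Pi.single_eq_of_ne hl, map_zero]
      · intro h4
        exact absurd (Finset.mem_univ _) h4
    rw [e1, sub_self]
    exact Cen.zero

theorem tr_sub_br (x y : S) : (x * y - y * x).trace = 0 := trace_br x y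

/-- the square of a matrix of trace zero is scalar -/
theorem sq_eq {x : S} (hx : x.trace = 0) : ∃ c : ℂ, x * x = c • (1 : S) := by
  refine ⟨-(x.det), ?_⟩
  have h1 : x 1 1 = - x 0 0 := by
    rw [Matrix.trace_fin_two] at hx
    linear_combination hx
  ext i j
  rw [Matrix.det_fin_two, Matrix.smul_apply, Matrix.mul_apply, Fin.sum_univ_two, smul_eq_mul]
  fin_cases i <;> fin_cases j <;> simp [h1] <;> ring

section Dag

variable (h : TypeA0 φ (MM V)) (hR : RD J Pm V)
include h hR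

/-- Some component of the adjoint is not zero. -/
theorem claimA (i : I) : ∃ x : S, x.trace = 0 ∧ ∃ ξ, Dec φ (MM V) (dag J (φ i x)) ξ ∧ ξ i ≠ 0 := by
  by_contra hcon
  push Not at hcon
  obtain ⟨ξ, hξ⟩ := h.dec _ (hR.dag_mem (h.mem i E (trace_mk _ _ _)))
  have h0 := hcon E (trace_mk _ _ _) ξ hξ
  have h1 := h.other hξ i E
  rw [h0, map_zero, sub_zero] at h1
  have h2 : φ i E = 0 := by
    refine hR.normal (h.mem i E (trace_mk _ _ _)) ?_ h1.symm
    rw [← h.mul]
    have h3 : E * E = 0 := by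
      ext i j
      fin_cases i <;> fin_cases j <;> simp [E, mk, Matrix.mul_apply, Fin.sum_univ_two]
    rw [h3, map_zero]
  exact E_ne (h.inj h2)

/-- All elements are components of adjoints. -/
theorem all_comp (i : I) (y : S) (hy : y.trace = 0) :
    ∃ x : S, x.trace = 0 ∧ ∃ ξ, Dec φ (MM V) (dag J (φ i x)) ξ ∧ ξ i = y := by
  let Ni : Submodule ℂ S :=
    { carrier := {y | ∃ x : S, x.trace = 0 ∧ ∃ ξ, Dec φ (MM V) (dag J (φ i x)) ξ ∧ ξ i = y}
      zero_mem' := ⟨0, Matrix.trace_zero _ _, 0, by rw [map_zero, dag_zero]; exact Dec.zero, rfl⟩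
      add_mem' := by
        rintro _ _ ⟨x, hx, ξ, hξ, rfl⟩ ⟨x', hx', ξ', hξ', rfl⟩
        exact ⟨x + x', by rw [Matrix.trace_add, hx, hx', add_zero], ξ + ξ', by
          rw [map_add, dag_add]; exact hξ.add hξ', rfl⟩
      smul_mem' := by
        rintro c _ ⟨x, hx, ξ, hξ, rfl⟩
        refine ⟨starRingEnd ℂ c • x, by rw [Matrix.trace_smul, hx, smul_zero], c • ξ, ?_, rfl⟩
        rw [map_smul, dag_smul, Complex.conj_conj]
        exact hξ.smul c }
  have h1 : Ni = ⊥ ∨ ∀ x : S, x.trace = 0 → x ∈ Ni := by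
    refine simple Ni ?_ ?_
    · rintro _ ⟨x, hx, ξ, hξ, rfl⟩
      exact hξ.1 i
    · rintro y' hy' _ ⟨x, hx, ξ, hξ, rfl⟩
      have hm := hR.dag_mem (h.mem i y' hy')
      obtain ⟨η, hη⟩ := h.dec _ hm
      have e1 : φ i (x * η i - η i * x) = φ i x * dag J (φ i y') - dag J (φ i y') * φ i x := by
        have h2 := h.other hη i x
        rw [sub_mul, mul_sub] at h2
        rw [map_sub, h.mul, h.mul]
        linear_combination (norm := abel) h2
      have e2 : dag J (φ i (x * η i - η i * x)) = φ i (y' * ξ i - ξ i * y') := by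
        rw [e1, hR.dag_br, hR.dag_dag]
        have h2 := h.other hξ i y'
        rw [sub_mul, mul_sub] at h2
        rw [map_sub, h.mul, h.mul]
        linear_combination (norm := abel) -h2
      refine ⟨x * η i - η i * x, trace_br _ _, Pi.single i (y' * ξ i - ξ i * y'), ?_,
        Pi.single_eq_same _ _⟩
      rw [e2]
      exact h.dec_single i (trace_br _ _)
  rcases h1 with h1 | h1
  · exfalso
    obtain ⟨x, hx, ξ, hξ, hne⟩ := claimA h hR i
    have h2 : ξ i ∈ Ni := ⟨x, hx, ξ, hξ, rfl⟩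
    rw [h1, Submodule.mem_bot] at h2
    exact hne h2
  · exact h1 y hy

/-- The adjoints of the elements of one factor have no components at the other factors. -/
theorem claimB {i l : I} (hil : l ≠ i) {w : S} (hw : w.trace = 0) {η : I → S}
    (hη : Dec φ (MM V) (dag J (φ l w)) η) : η i = 0 := by
  refine h.eq_zero_of_comm (hη.1 i) (i := i) fun y hy => ?_
  obtain ⟨x, hx, ξ, hξ, rfl⟩ := all_comp h hR i y hy
  have h1 : φ i x * φ l w - φ l w * φ i x = 0 := by rw [h.comm i l (Ne.symm hil), sub_self]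
  have h2 := hR.dag_br (φ i x) (φ l w)
  rw [h1, dag_zero] at h2
  have h3 := h.dec_br (hR.dag_mem (h.mem l w hw)) (hR.dag_mem (h.mem i x hx)) hη hξ
  rw [← h2] at h3
  have h4 := congrFun (h.uniq h3 Dec.zero) i
  have h5 : η i * ξ i - ξ i * η i = 0 := h4
  rw [← h.mul, ← h.mul, sub_eq_zero.1 h5]

/-- The adjoint preserves the factors. -/
theorem claimC (l : I) {w : S} (hw : w.trace = 0) :
    ∃ y : S, y.trace = 0 ∧ dag J (φ l w) = φ l y := by
  have key : ∀ a b : S, a.trace = 0 → b.trace = 0 →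
      ∃ y : S, y.trace = 0 ∧ dag J (φ l (a * b - b * a)) = φ l y := by
    intro a b ha hb
    have hma := hR.dag_mem (h.mem l a ha)
    have hmb := hR.dag_mem (h.mem l b hb)
    obtain ⟨ξ, hξ⟩ := h.dec _ hma
    obtain ⟨η, hη⟩ := h.dec _ hmb
    refine ⟨η l * ξ l - ξ l * η l, trace_br _ _, ?_⟩
    rw [map_sub, h.mul, h.mul, hR.dag_br, h.br hmb hma hη hξ, Finset.sum_eq_single l]
    · intro i _ hi
      rw [claimB h hR (Ne.symm hi) ha hξ, mul_zero, zero_mul, sub_zero, map_zero]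
    · intro h4
      exact absurd (Finset.mem_univ _) h4
  let Nl : Submodule ℂ S :=
    { carrier := {w | ∃ y : S, y.trace = 0 ∧ dag J (φ l w) = φ l y}
      zero_mem' := ⟨0, Matrix.trace_zero _ _, by rw [map_zero, dag_zero]⟩
      add_mem' := by
        rintro _ _ ⟨y, hy, e⟩ ⟨y', hy', e'⟩
        exact ⟨y + y', by rw [Matrix.trace_add, hy, hy', add_zero], by
          rw [map_add, dag_add, e, e', map_add]⟩
      smul_mem' := by
        rintro c _ ⟨y, hy, e⟩
        refine ⟨starRingEnd ℂ c • y, by rw [Matrix.trace_smul, hy, smul_zero], ?_⟩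
        rw [map_smul, dag_smul, e, map_smul] }
  have hH : H ∈ Nl := by
    rw [← br_EF]
    exact key _ _ (trace_mk _ _ _) (trace_mk _ _ _)
  have hE : E ∈ Nl := by
    have h1 : H * E - E * H ∈ Nl := key H E (trace_mk _ _ _) (trace_mk _ _ _)
    have h2 := Nl.smul_mem (2⁻¹ : ℂ) h1
    rwa [br_HE, smul_smul, inv_mul_cancel₀ two_ne_zero, one_smul] at h2
  have hF : F ∈ Nl := by
    have h1 : H * F - F * H ∈ Nl := key H F (trace_mk _ _ _) (trace_mk _ _ _)
    have h2 := Nl.smul_mem ((-2)⁻¹ : ℂ) h1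
    rwa [br_HF, smul_smul, inv_mul_cancel₀ (by norm_num), one_smul] at h2
  exact all_of hH hE hF hw

theorem cen_dag {z : MC N} (hz : Cen (MM V) z) : Cen (MM V) (dag J z) := by
  intro Y hY
  have h1 := hR.dag_br z (dag J Y)
  rw [hz _ (hR.dag_mem hY), sub_self, dag_zero, hR.dag_dag] at h1
  exact (sub_eq_zero.1 h1.symm).symm

/-- The components of the adjoint -/
theorem dec_dag {X : MC N} {ξ : I → S} (hξ : Dec φ (MM V) X ξ) :
    ∃ y : I → S, (∀ l, dag J (φ l (ξ l)) = φ l (y l)) ∧ Dec φ (MM V) (dag J X) y := by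
  choose y hy hy' using fun l => claimC h hR l (hξ.1 l)
  refine ⟨y, hy', hy, ?_⟩
  have e1 : dag J X - ∑ l, φ l (y l) = dag J (X - ∑ l, φ l (ξ l)) := by
    rw [dag_sub, dag_sum]
    congr 1
    exact Finset.sum_congr rfl fun l _ => (hy' l).symm
  rw [e1]
  exact cen_dag h hR hξ.2

/-- The factor is compact: it commutes with the complex structure. -/
theorem cpt_sq {i : I} (hc : ∀ a, cR J * φ i a = φ i a * cR J) {X : MR N} {ξ : I → S}
    (hξ : Dec φ (MM V) (cR X) ξ) : ∃ t : ℝ, t ≤ 0 ∧ ξ i * ξ i = (t : ℂ) • (1 : S) := by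
  obtain ⟨y, hy1, hy⟩ := dec_dag h hR hξ
  have hJJ := hR.cJ
  have hy2 : y i = -ξ i := by
    refine h.comp_eq hy (by rw [Matrix.trace_neg, hξ.1, neg_zero]) fun a => ?_
    have e1 : dag J (cR X) - φ i (-ξ i) = cR J * (cR X - φ i (ξ i)) * cR J := by
      unfold dag
      rw [cj_cR, map_neg, sub_neg_eq_add, mul_sub, sub_mul, hc, mul_assoc (φ i (ξ i)), hJJ]
      simp
    rw [e1]
    calc cR J * (cR X - φ i (ξ i)) * cR J * φ i a
        = cR J * ((cR X - φ i (ξ i)) * φ i a) * cR J := by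
          rw [mul_assoc, hc, ← mul_assoc, mul_assoc (cR J)]
      _ = _ := by
          rw [h.other hξ, ← mul_assoc, hc]
          simp only [mul_assoc]
  obtain ⟨c, hcc⟩ := sq_eq (hξ.1 i)
  obtain ⟨t, ht1, ht2, -⟩ := hR.sign (Y := φ i (ξ i)) (e := φ i 1) (ε := -1) (c := c)
    (h.mem i _ (hξ.1 i)) (by rw [← h.mul, mul_one]) (h.one i)
    (by rw [hy1, hy2, map_neg]; simp) (by rw [← h.mul, hcc, map_smul]) (by rw [← h.mul, mul_one])
  refine ⟨-t, by linarith, ?_⟩
  rw [hcc]
  congr 1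
  push_cast at ht1 ⊢
  rw [ht1]
  ring

end Dag

end Pool.Agent.Run7.h358.A1
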