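import Pool.Agent.Run7.h358.A1.Ncpt

set_option autoImplicit false
set_option linter.unusedSectionVars false

/-!
# Conjugation by automorphisms of the complex numbers
-/

open Matrix

noncomputable section

namespace Pool.Agent.Run7.h358.A1

open Pool.Agent.Y102.TA

/-- the conjugate matrix -/
def sg {n m : Type} (σ : ℂ ≃+* ℂ) (X : Matrix n m ℂ) : Matrix n m ℂ := X.map σ

section sg

variable {n : Type} [Fintype n] [DecidableEq n] (σ : ℂ ≃+* ℂ)

theorem sg_mul (X Y : Matrix n n ℂ) : sg σ (X * Y) = sg σ X * sg σ Y := by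
  ext i j
  simp [sg, Matrix.mul_apply]

theorem sg_add (X Y : Matrix n n ℂ) : sg σ (X + Y) = sg σ X + sg σ Y := by
  ext i j
  simp [sg]

theorem sg_sub (X Y : Matrix n n ℂ) : sg σ (X - Y) = sg σ X - sg σ Y := by
  ext i j
  simp [sg]

theorem sg_smul (c : ℂ) (X : Matrix n n ℂ) : sg σ (c • X) = σ c • sg σ X := by
  ext i j
  simp [sg]

theorem sg_zero : sg σ (0 : Matrix n n ℂ) = 0 := by
  ext i j
  simp [sg]

theorem sg_one : sg σ (1 : Matrix n n ℂ) = 1 := by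
  ext i j
  by_cases h : i = j
  · subst h
    simp [sg]
  · simp [sg, Matrix.one_apply_ne h]

theorem sg_sum {ι : Type} (s : Finset ι) (f : ι → Matrix n n ℂ) :
    sg σ (∑ i ∈ s, f i) = ∑ i ∈ s, sg σ (f i) := by
  classical
  induction s using Finset.induction_on with
  | empty => rw [Finset.sum_empty, Finset.sum_empty, sg_zero]
  | insert a s ha ih => rw [Finset.sum_insert ha, Finset.sum_insert ha, sg_add, ih]

theorem sg_symm (X : Matrix n n ℂ) : sg σ (sg σ.symm X) = X := by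
  ext i j
  simp [sg]

theorem symm_sg (X : Matrix n n ℂ) : sg σ.symm (sg σ X) = X := by
  ext i j
  simp [sg]

theorem sg_trace (X : Matrix n n ℂ) : (sg σ X).trace = σ X.trace := by
  simp [sg, Matrix.trace]

theorem sg_inj {X Y : Matrix n n ℂ} (h : sg σ X = sg σ Y) : X = Y := by
  rw [← symm_sg σ X, h, symm_sg]

end sg

variable {N : ℕ} {I : Type} [Fintype I] [DecidableEq I] {φ : I → S →ₗ[ℂ] MC N}
  {M L : Submodule ℂ (MC N)} {σ : ℂ ≃+* ℂ}

/-- the conjugate homomorphisms -/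
def ts (σ : ℂ ≃+* ℂ) (φ : I → S →ₗ[ℂ] MC N) (i : I) : S →ₗ[ℂ] MC N where
  toFun x := sg σ (φ i (sg σ.symm x))
  map_add' x y := by rw [sg_add, map_add, sg_add]
  map_smul' c x := by
    rw [sg_smul, map_smul, sg_smul, RingEquiv.apply_symm_apply, RingHom.id_apply]

theorem ts_apply (i : I) (x : S) : ts σ φ i x = sg σ (φ i (sg σ.symm x)) := rfl

theorem cen_sg (hM : ∀ X ∈ M, sg σ.symm X ∈ M) {z : MC N} (hz : Cen M z) : Cen M (sg σ z) := by
  intro Y hY
  have h1 := hz _ (hM Y hY)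
  have h2 := congrArg (sg σ) h1
  rwa [sg_mul, sg_mul, sg_symm] at h2

theorem dec_sg (hM : ∀ X ∈ M, sg σ.symm X ∈ M) {X : MC N} {ξ : I → S} (hξ : Dec φ M X ξ) :
    Dec (ts σ φ) M (sg σ X) fun i => sg σ (ξ i) := by
  refine ⟨fun i => by rw [sg_trace, hξ.1, map_zero], ?_⟩
  have h1 := cen_sg hM hξ.2
  rw [sg_sub, sg_sum] at h1
  have h2 : ∀ i, ts σ φ i (sg σ (ξ i)) = sg σ (φ i (ξ i)) := fun i => by
    rw [ts_apply, symm_sg]
  simp only [h2]
  exact h1

theorem dec_sg' (hM : ∀ X ∈ M, sg σ X ∈ M) {X : MC N} {ξ : I → S}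
    (hξ : Dec (ts σ φ) M X ξ) : Dec φ M (sg σ.symm X) fun i => sg σ.symm (ξ i) := by
  refine ⟨fun i => by rw [sg_trace, hξ.1, map_zero], ?_⟩
  have h1 : Cen M (sg σ.symm (X - ∑ i, ts σ φ i (ξ i))) :=
    cen_sg (σ := σ.symm) (fun X hX => hM X hX) hξ.2
  rw [sg_sub, sg_sum] at h1
  have h2 : ∀ i, sg σ.symm (ts σ φ i (ξ i)) = φ i (sg σ.symm (ξ i)) := fun i => by
    rw [ts_apply, symm_sg]
  simp only [h2] at h1
  exact h1

theorem TypeA0.conj (h : TypeA0 φ M) (hM : ∀ X ∈ M, sg σ X ∈ M)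
    (hM' : ∀ X ∈ M, sg σ.symm X ∈ M) : TypeA0 (ts σ φ) M where
  mul i a b := by rw [ts_apply, sg_mul, h.mul, sg_mul]; rfl
  comm i k hik a b := by
    rw [ts_apply, ts_apply, ← sg_mul, h.comm i k hik, sg_mul]
  one i h0 := by
    rw [ts_apply, sg_one] at h0
    exact h.one i (sg_inj σ (h0.trans (sg_zero σ).symm))
  mem i x hx := hM _ (h.mem i _ (by rw [sg_trace, hx, map_zero]))
  dec X hX := by
    obtain ⟨ξ, hξ⟩ := h.dec _ (hM' X hX)
    have h1 := dec_sg hM' hξ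
    rw [sg_symm] at h1
    exact ⟨_, h1⟩

theorem Link.conj (hM : ∀ X ∈ M, sg σ X ∈ M) (hL : ∀ X ∈ L, sg σ.symm X ∈ L) {i k : I}
    (h : Link φ M L i k) : Link (ts σ φ) M L i k := by
  obtain ⟨Θ, h1, h2, h3⟩ := h
  refine ⟨{ toFun := fun x => sg σ (Θ (sg σ.symm x))
            map_add' := fun x y => by rw [sg_add, map_add, sg_add]
            map_smul' := fun c x => by
              rw [sg_smul, map_smul, sg_smul, RingEquiv.apply_symm_apply, RingHom.id_apply] },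
    fun a b => ?_, ?_, fun ξ hξ => ?_⟩
  · change sg σ (Θ (sg σ.symm (a * b))) = sg σ (Θ (sg σ.symm a)) * sg σ (Θ (sg σ.symm b))
    rw [sg_mul, h1, sg_mul]
  · change sg σ (Θ (sg σ.symm 1)) = 1
    rw [sg_one, h2, sg_one]
  · obtain ⟨X, hX, hd⟩ := hξ
    have h4 := h3 _ ⟨_, hL X hX, dec_sg' hM hd⟩
    change ξ i = sg σ (Θ (sg σ.symm (ξ k)))
    have h5 := congrArg (sg σ) h4
    rw [sg_symm] at h5
    exact h5

/-- compactness of the conjugate factor -/
theorem cpt_conj (J : MR N) (i : I) : (∀ a, cR J * ts σ φ i a = ts σ φ i a * cR J) ↔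
    ∀ a, cR J * sg σ (φ i a) = sg σ (φ i a) * cR J := by
  constructor
  · intro h a
    have h1 := h (sg σ a)
    rwa [ts_apply, symm_sg] at h1
  · intro h a
    exact h _

end Pool.Agent.Run7.h358.A1
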