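import Pool.Agent.Run7.h358.A1.Av
import Pool.Agent.Run7.h358.U2.Dm

set_option autoImplicit false
set_option linter.unusedSectionVars false

/-!
# Motives of abelian varieties of type `A_1`
-/

open Module Function TensorProduct Matrix

noncomputable section

namespace Pool.Agent.Run7.h358.A1

open Pool.Agent.Y102 Pool.Agent.W516.DR Pool.Agent.H204R3.GP Pool.Agent.W516.KC
  Pool.Agent.H204R3.SP Pool.Agent.TH119.MX Pool.Agent.R917 Pool.Agent.N208.AM Pool.Agent.N208.AD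
  Pool.Agent.N208.BT Pool.Agent.N208.CT Pool.Agent.N208.LC

variable {g : ℕ} {A : AbVar g} {s n : ℕ} {r : Fin s → ℕ} {B : Fin n → Ten A r} {w : Fin s → ℤ}
  {P : Matrix (Fin n) (Fin n) ℂ} {H : Set (Matrix (Fin n) (Fin n) ℂ)}
  {Wt : Matrix (Fin n) (Fin n) ℚ} {N : Matrix (Fin n) (Fin n) ℝ}

/-- If all full subalgebras contain the derived algebra. -/
def DerFull (A : AbVar g) : Prop :=
  ∀ 𝔮 : Submodule ℚ (Module.End ℚ A.H1), A.Full 𝔮 → der A.NA ≤ 𝔮

theorem WeakA1.derFull {k : ℕ} {φ : Fin k → TA.S →ₗ[ℂ] MC (2 * g)} (h : WeakA1 A φ) :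
    DerFull A := fun _ hq => h.der_le hq

theorem DerFull.le_dq (hA : DerFull A) (h : Mot w B P) (hW : WRel w B Wt) (hH : PtM P H) :
    der A.NA ≤ dq B Wt H := by
  have h1 : der A.NA ≤ qM B Wt H := hA _ (qM_full h hW hH)
  refine full_NA.perfect.trans ?_
  refine Submodule.span_mono ?_
  rintro _ ⟨X, hX, Y, hY, rfl⟩
  exact ⟨X, h1 hX, Y, h1 hY, rfl⟩

/-- The derived algebra is in the Lie algebra of the group. -/
theorem DerFull.der_LQ (hA : DerFull A) (h : Mot w B P) (hW : WRel w B Wt)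
    (hH : PtM P H) {Z : Module.End ℚ A.H1} (hZ : Z ∈ der A.NA) {M : Matrix (Fin n) (Fin n) ℚ}
    (hM : Rel B Z M) : M ∈ LQ H := by
  obtain ⟨-, M', hM', h2⟩ := der_mem h hW (hA.le_dq h hW hH hZ)
  rwa [Rel.uniq h.li hM hM']

/-- **Main theorem.** -/
theorem DerFull.main (hA : DerFull A) (h : Mot w B P) (hW : WRel w B Wt) (hH : PtM P H)
    (hcen : ∀ Y ∈ A.CN, ∀ M : Matrix (Fin n) (Fin n) ℚ, Rel B Y M → M ∈ LQ H)
    (hN : RelR B AbVar.JJ N) {u : ℂ} (hu : u ≠ 0) : NormedSpace.exp (KK Wt N u) ∈ H ∧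
      HRel w B u (NormedSpace.exp (KK Wt N u)) := by
  obtain ⟨N', hN', t, X, M, h1, h2⟩ := exists_J h
  have h3 : N = N' := hN.uniq h.li hN'
  subst h3
  have h4 : N ∈ spR B (A.NA : Set (Module.End ℚ A.H1)) := by
    rw [h2]
    exact Submodule.sum_mem _ fun k _ => Submodule.smul_mem _ _ (mem_spR (h1 k).1 (h1 k).2)
  obtain ⟨Nc, hNc, Nd, hNd, hNe⟩ := exists_dec h h4
  have h5 : Nd ∈ spR B (dq B Wt H : Set (Module.End ℚ A.H1)) := by
    refine (Submodule.span_mono ?_) hNd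
    rintro _ ⟨Z, hZ, M, hM, rfl⟩
    exact ⟨Z, hA.le_dq h hW hH hZ, M, hM, rfl⟩
  refine ⟨exp_mem hH.grp fun d => ?_, hrel_exp hW hN hu⟩
  have h6 : cxm N = cxm Nc + cxm Nd := by
    rw [hNe]
    ext i j
    simp [cxm]
  unfold KK
  rw [h6]
  exact ((Wt_mem' h hW hH d).smul _).add
    (((U2.stab_cen' hcen hNc d).add (stab_spR h hW h5 d)).smul _)

end Pool.Agent.Run7.h358.A1
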